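import Pool.Agent.Helper42.GC.Word

/-!
# Building straight-line grammars
-/

set_option autoImplicit false

open Finset

namespace Pool.Agent.Helper42.GC

/-- All the words of `T` are generated by one straight-line grammar with `s` rules. -/
def Sys (s : ℕ) (T : List Bool → Prop) : Prop :=
  ∃ F : ℕ → List Bool, Valid s F ∧ ∀ w, T w → ∃ i < s, F i = w

lemma Sys.gen {s : ℕ} {T : List Bool → Prop} (h : Sys s T) {w : List Bool} (hw : T w) : Gen s w := by
  obtain ⟨F, h1, h2⟩ := h
  exact ⟨F, h1, h2 w hw⟩

lemma Sys.mono {s s' : ℕ} {T T' : List Bool → Prop} (h : Sys s T) (hs : s ≤ s')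
    (hT : ∀ w, T' w → T w) : Sys s' T' := by
  classical
  obtain ⟨F, h1, h2⟩ := h
  refine ⟨fun i => if i < s then F i else [true], ?_, ?_⟩
  · intro i _
    by_cases hi : i < s
    · rcases h1 i hi with ⟨c, hc⟩ | ⟨j, hj, k, hk, hjk⟩
      · left
        exact ⟨c, by simp only [hi, if_true, hc]⟩
      · right
        refine ⟨j, hj, k, hk, ?_⟩
        have hj' : j < s := by omega
        have hk' : k < s := by omega
        simp only [hi, hj', hk', if_true, hjk]
    · left
      exact ⟨true, by simp only [hi, if_false]⟩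
  · intro w hw
    obtain ⟨i, hi, hi2⟩ := h2 w (hT w hw)
    exact ⟨i, by omega, by simp only [hi, if_true, hi2]⟩

lemma Sys.add {s : ℕ} {T : List Bool → Prop} (h : Sys s T) {u v : List Bool} (hu : T u) (hv : T v) :
    Sys (s + 1) (fun w => T w ∨ w = u ++ v) := by
  classical
  obtain ⟨F, h1, h2⟩ := h
  obtain ⟨j, hj, hj2⟩ := h2 u hu
  obtain ⟨k, hk, hk2⟩ := h2 v hv
  refine ⟨fun i => if i < s then F i else u ++ v, ?_, ?_⟩
  · intro i hi
    by_cases hi' : i < s
    · rcases h1 i hi' with ⟨c, hc⟩ | ⟨j', hj', k', hk', hjk⟩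
      · left
        exact ⟨c, by simp only [hi', if_true, hc]⟩
      · right
        refine ⟨j', hj', k', hk', ?_⟩
        have e1 : j' < s := by omega
        have e2 : k' < s := by omega
        simp only [hi', e1, e2, if_true, hjk]
    · right
      refine ⟨j, by omega, k, by omega, ?_⟩
      simp only [hi', hj, hk, if_true, if_false, hj2, hk2]
  · rintro w (hw | rfl)
    · obtain ⟨i, hi, hi2⟩ := h2 w hw
      exact ⟨i, by omega, by simp only [hi, if_true, hi2]⟩
    · exact ⟨s, by omega, by simp⟩

lemma Sys.flat {s : ℕ} {T : List Bool → Prop} (h : Sys s T) : ∀ L : List (List Bool),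
    (∀ w ∈ L, w = [] ∨ T w) → Sys (s + L.length) (fun w => T w ∨ (w = L.flatten ∧ w ≠ [])) := by
  intro L
  induction L with
  | nil =>
    intro _
    refine h.mono (by simp) ?_
    rintro w (hw | ⟨hw, hw2⟩)
    · exact hw
    · exact absurd (by simpa using hw) hw2
  | cons u L ih =>
    intro hL
    have h1 := ih fun w hw => hL w (by simp [hw])
    rcases hL u (by simp) with hu | hu
    · refine h1.mono (by simp) ?_
      rintro w (hw | ⟨hw, hw2⟩)
      · exact Or.inl hw
      · refine Or.inr ⟨?_, hw2⟩
        rw [hw, List.flatten_cons, hu, List.nil_append]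
    · by_cases hf : L.flatten = []
      · refine h1.mono (by simp) ?_
        rintro w (hw | ⟨hw, hw2⟩)
        · exact Or.inl hw
        · left
          rw [hw, List.flatten_cons, hf, List.append_nil]
          exact hu
      · have h2 := h1.add (u := u) (v := L.flatten) (Or.inl hu) (Or.inr ⟨rfl, hf⟩)
        refine h2.mono (by simp only [List.length_cons]; omega) ?_
        rintro w (hw | ⟨hw, _⟩)
        · exact Or.inl (Or.inl hw)
        · right
          rw [hw, List.flatten_cons]

lemma Sys.many {s : ℕ} {T : List Bool → Prop} (h : Sys s T) : ∀ Ls : List (List (List Bool)),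
    (∀ L ∈ Ls, ∀ w ∈ L, w = [] ∨ T w) →
    Sys (s + (Ls.map List.length).sum) (fun w => T w ∨ ∃ L ∈ Ls, w = L.flatten ∧ w ≠ []) := by
  intro Ls
  induction Ls with
  | nil =>
    intro _
    refine h.mono (by simp) ?_
    rintro w (hw | ⟨L, hL, _⟩)
    · exact hw
    · exact absurd hL (by simp)
  | cons L Ls ih =>
    intro hL
    have h1 := ih fun L hL' => hL L (by simp [hL'])
    have h2 := h1.flat L fun w hw => (hL L (by simp) w hw).imp_right fun h => Or.inl h
    refine h2.mono (by simp only [List.map_cons, List.sum_cons]; omega) ?_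
    rintro w (hw | ⟨L', hL', hw⟩)
    · exact Or.inl (Or.inl hw)
    · rcases List.mem_cons.1 hL' with rfl | hL'
      · exact Or.inr hw
      · exact Or.inl (Or.inr ⟨L', hL', hw⟩)

lemma sys_letters : Sys 2 (fun w => ∃ c, w = [c]) := by
  refine ⟨fun i => if i = 0 then [false] else [true], ?_, ?_⟩
  · intro i _
    left
    by_cases h : i = 0
    · exact ⟨false, by simp [h]⟩
    · exact ⟨true, by simp [h]⟩
  · rintro w ⟨c, rfl⟩
    cases c
    · exact ⟨0, by omega, by simp⟩
    · exact ⟨1, by omega, by simp⟩

/-- every nonempty word is generated by some grammar -/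
lemma gen_length {w : List Bool} (hw : w ≠ []) : Gen (2 + w.length) w := by
  have h := sys_letters.flat (w.map fun c => [c]) (by
    intro u hu
    rw [List.mem_map] at hu
    obtain ⟨c, _, rfl⟩ := hu
    exact Or.inr ⟨c, rfl⟩)
  rw [List.length_map] at h
  have h1 : ∀ v : List Bool, v = (v.map fun c => [c]).flatten := by
    intro v
    induction v with
    | nil => rfl
    | cons c v ih =>
      rw [List.map_cons, List.flatten_cons, ← ih]
      rfl
  exact h.gen (Or.inr ⟨h1 w, hw⟩)

/-- **Grammars for words built in levels.** -/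
theorem layered {β : Type*} (B : Finset β) (wd : ℕ → β → List Bool) (f : ℕ → β → List β)
    (m : ℕ → ℕ) (h0 : ∀ b ∈ B, ∃ c, wd 0 b = [c])
    (h1 : ∀ l, ∀ b ∈ B, wd (l + 1) b = (f l b).flatMap (wd l))
    (h2 : ∀ l, ∀ b ∈ B, ∀ c ∈ f l b, c ∈ B) (h3 : ∀ l, ∀ b ∈ B, (f l b).length ≤ m l) (l : ℕ) :
    Sys (2 + B.card * ∑ j ∈ range l, m j) (fun w => (∃ b ∈ B, w = wd l b) ∧ w ≠ []) := by
  induction l with
  | zero =>
    refine sys_letters.mono (by simp) ?_
    rintro w ⟨⟨b, hb, rfl⟩, _⟩
    exact h0 b hb
  | succ l ih =>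
    have h4 := ih.many (B.toList.map fun b => (f l b).map (wd l)) (by
      intro L hL w hw
      rw [List.mem_map] at hL
      obtain ⟨b, hb, rfl⟩ := hL
      rw [List.mem_map] at hw
      obtain ⟨c, hc, rfl⟩ := hw
      rw [Finset.mem_toList] at hb
      by_cases he : wd l c = []
      · exact Or.inl he
      · exact Or.inr ⟨⟨c, h2 l b hb c hc, rfl⟩, he⟩)
    refine h4.mono ?_ ?_
    · rw [List.map_map, Finset.sum_range_succ, mul_add]
      have h5 : (B.toList.map (List.length ∘ fun b => (f l b).map (wd l))).sum ≤ B.card * m l := by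
        have h6 := List.sum_le_card_nsmul (B.toList.map (List.length ∘ fun b => (f l b).map (wd l)))
          (m l) (by
            intro x hx
            rw [List.mem_map] at hx
            obtain ⟨b, hb, rfl⟩ := hx
            rw [Finset.mem_toList] at hb
            simp only [Function.comp, List.length_map]
            exact h3 l b hb)
        rw [List.length_map, Finset.length_toList, smul_eq_mul] at h6
        exact h6
      omega
    · rintro w ⟨⟨b, hb, rfl⟩, hw⟩
      right
      refine ⟨(f l b).map (wd l), List.mem_map.2 ⟨b, Finset.mem_toList.2 hb, rfl⟩, ?_, hw⟩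
      rw [h1 l b hb, List.flatMap_def]

end Pool.Agent.Helper42.GC
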