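import Mathlib

/-!
# Grammar complexity: definitions
-/

set_option autoImplicit false

open Filter

namespace Pool.Agent.Helper42.GC

/-- The words `F 0, F 1, ..., F (s - 1)` are given by the rules of a straight-line grammar: every one
of them is a letter or the concatenation of two earlier ones. -/
def Valid (s : ℕ) (F : ℕ → List Bool) : Prop :=
  ∀ i < s, (∃ c, F i = [c]) ∨ ∃ j < i, ∃ k < i, F i = F j ++ F k

/-- The word `w` is generated by a straight-line grammar with `s` rules. -/
def Gen (s : ℕ) (w : List Bool) : Prop := ∃ F : ℕ → List Bool, Valid s F ∧ ∃ i < s, F i = w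

open Classical in
/-- the first `n` letters of the characteristic sequence of `A` -/
noncomputable def pre (A : Set ℕ) (n : ℕ) : List Bool := (List.range n).map (fun i => decide (i ∈ A))

/-- the least number of rules of a straight-line grammar for a word consisting of the first `n`
letters of the characteristic sequence of `A`, for some `n ≥ N` -/
noncomputable def gram (A : Set ℕ) (N : ℕ) : ℕ := sInf {s | ∃ n, N ≤ n ∧ Gen s (pre A n)}

open Classical in
/-- the `n` letters of the characteristic sequence of `A` from the place `u` on -/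
noncomputable def word (A : Set ℕ) (u n : ℕ) : List Bool :=
  (List.range n).map (fun i => decide (u + i ∈ A))

/-- `gram A N ≤ C log N` for all large `N` -/
def Logarithmic (A : Set ℕ) : Prop := ∃ C : ℝ, ∀ᶠ N : ℕ in atTop, (gram A N : ℝ) ≤ C * Real.log N

/-- `gram A N ≤ φ(N) ^ C` for some `C` and all large `N` -/
def Scale (φ : ℕ → ℝ) (A : Set ℕ) : Prop :=
  ∃ C : ℕ, ∀ᶠ N : ℕ in atTop, (gram A N : ℝ) ≤ φ N ^ C

/-- `gram A N ≤ N ^ (κ + o(1))` -/
def Powers (κ : ℝ) (A : Set ℕ) : Prop :=
  ∀ ε : ℝ, 0 < ε → ∀ᶠ N : ℕ in atTop, (gram A N : ℝ) ≤ (N : ℝ) ^ (κ + ε)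

/-- `iter s k b = s_0 (s_1 (... (s_{k-1} (b))))` for a sequence of substitutions -/
def iter {α : Type} (s : ℕ → α → List α) : ℕ → α → List α
  | 0, b => [b]
  | k + 1, b => (s k b).flatMap (iter s k)

/-- the places of the letters of `P` in the word with the prefixes `iter s k a` -/
def places {α : Type} (s : ℕ → α → List α) (a : α) (P : Set α) : Set ℕ :=
  {n | ∃ k, ∃ b ∈ P, (iter s k a)[n]? = some b}

/-- `A` is the set of the places of some letters in an `S`-adic sequence of exponential growth. -/
def IsAdic (A : Set ℕ) : Prop :=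
  ∃ (α : Type) (_ : Fintype α) (s : ℕ → α → List α) (a : α) (P : Set α) (M : ℕ) (c : ℝ),
    (∀ k b, (s k b).length ≤ M) ∧ (∀ k, ∃ v, s k a = a :: v) ∧ 1 < c ∧
    (∀ᶠ k : ℕ in atTop, c ^ k ≤ ((iter s k a).length : ℝ)) ∧ A = places s a P

/-- `A` is the set of the places of some letters in the fixed point of a substitution of exponential
growth. -/
def IsMorphic (A : Set ℕ) : Prop :=
  ∃ (α : Type) (_ : Fintype α) (s : α → List α) (a : α) (P : Set α) (c : ℝ),
    (∃ v, s a = a :: v) ∧ 1 < c ∧
    (∀ᶠ k : ℕ in atTop, c ^ k ≤ ((iter (fun _ => s) k a).length : ℝ)) ∧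
    A = places (fun _ => s) a P

/-- the finite unions of the members of a class -/
def Unions (𝒞 : Set ℕ → Prop) (A : Set ℕ) : Prop :=
  ∃ (m : ℕ) (B : Fin m → Set ℕ), (∀ i, 𝒞 (B i)) ∧ A = ⋃ i, B i

end Pool.Agent.Helper42.GC
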