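import Pool.Agent.Helper42.GC.Mor

/-!
# Windows, and the complexity of sets of the critical density
-/

set_option autoImplicit false

open Finset Filter

namespace Pool.Agent.Helper42.GC

open Pool.Agent.Helper76.FX

lemma word_eq_pre (A : Set ℕ) (u n : ℕ) : word A u n = pre {i | u + i ∈ A} n := rfl

lemma word_zero (A : Set ℕ) (n : ℕ) : word A 0 n = pre A n := by
  unfold word pre
  apply List.map_congr_left
  intro x _
  rw [decide_eq_decide, zero_add]

/-- the inequality in every window -/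
theorem window_bound {A : Set ℕ} {t : ℕ} (h : ∀ n, rep A n < 2 ^ (t + 1)) {u n s : ℕ}
    (hs : Gen s (word A u n)) : (A ∩ Set.Ico u (u + n)).ncard ≤ s ^ t := by
  classical
  rw [word_eq_pre] at hs
  have h1 : ∀ m, rep {i | u + i ∈ A} m ≤ rep A (m + 2 * u) := by
    intro m
    unfold rep
    refine Set.ncard_le_ncard_of_injOn (fun p : ℕ × ℕ => (u + p.1, u + p.2)) ?_ ?_
      (rep_finite A (m + 2 * u))
    · rintro p ⟨h1, h2, h3⟩
      refine ⟨h1, h2, ?_⟩
      simp only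
      omega
    · rintro ⟨a, b⟩ _ ⟨c, d⟩ _ h
      simp only [Prod.mk.injEq] at h
      ext <;> simp <;> omega
  have h2 := gen_bound hs (t := t) fun m => lt_of_le_of_lt ((rf_le_rep _ n m).trans (h1 m)) (h _)
  rw [count_pre] at h2
  refine le_trans ?_ h2
  refine Set.ncard_le_ncard_of_injOn (fun a : ℕ => a - u) ?_ ?_
    ((Set.finite_Iio n).subset Set.inter_subset_right)
  · rintro a ⟨h3, h4, h5⟩
    refine ⟨?_, ?_⟩
    · show u + (a - u) ∈ A
      rwa [Nat.add_sub_cancel' h4]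
    · show a - u < n
      omega
  · rintro a ⟨_, ha, _⟩ b ⟨_, hb, _⟩ hab
    simp only at hab
    omega

/-- sets which satisfy the density condition and have a bounded representation function cannot be
compressed -/
theorem incompressible {A : Set ℕ} {t : ℕ} (ht : 1 ≤ t) {c : ℝ} (hc0 : 0 < c) (hc : c < 1 / (2 * t))
    (h : ∀ n, rep A n < 2 ^ (t + 1)) {g : ℕ → ℝ} (hD : Dense g A) (hg0 : ∀ᶠ N : ℕ in atTop, 0 < g N)
    (hg : ∀ ε : ℝ, 0 < ε → ∀ᶠ N : ℕ in atTop, g N ≤ (N : ℝ) ^ ε) :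
    ∀ᶠ N : ℕ in atTop, (N : ℝ) ^ c ≤ gram A N := by
  obtain ⟨C, hC, hD⟩ := hD
  have ht0 : (0 : ℝ) < t := by exact_mod_cast ht
  have h1 : c * t < 1 / 2 := by
    rw [lt_div_iff₀ (by positivity)] at hc
    linarith
  obtain ⟨ε, hε⟩ : ∃ ε, ε = (1 / 2 - c * t) / 2 := ⟨_, rfl⟩
  have hε0 : 0 < ε := by rw [hε]; linarith
  filter_upwards [hD, hg0, hg ε hε0, (tendsto_rpow_nat hε0).eventually_gt_atTop (2 * C),
    eventually_ge_atTop 1] with N h2 h3 h4 h5 h6
  by_contra hcon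
  push Not at hcon
  have hN : (1 : ℝ) ≤ N := by exact_mod_cast h6
  have hN0 : (0 : ℝ) < N := by linarith
  have h7 : ((A ∩ Set.Icc 1 N).ncard : ℝ) ≤ (gram A N : ℝ) ^ t + 1 := by
    exact_mod_cast ineq' h N
  have h8 : (gram A N : ℝ) ^ t ≤ (N : ℝ) ^ (c * t) := by
    rw [Real.rpow_mul hN0.le, Real.rpow_natCast]
    exact pow_le_pow_left₀ (by positivity) hcon.le t
  have h9 : (1 : ℝ) ≤ (N : ℝ) ^ (c * t) := Real.one_le_rpow hN (by positivity)
  have h10 : (N : ℝ) ^ (1 / 2 - ε) ≤ Real.sqrt N / g N := by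
    rw [Real.rpow_sub hN0, ← Real.sqrt_eq_rpow]
    exact div_le_div_of_nonneg_left (by positivity) h3 h4
  have h11 : (N : ℝ) ^ (1 / 2 - ε) = (N : ℝ) ^ (c * t) * (N : ℝ) ^ ε := by
    rw [← Real.rpow_add hN0, hε]
    congr 1
    ring
  have h12 : (N : ℝ) ^ (c * t) * (N : ℝ) ^ ε ≤ C * (2 * (N : ℝ) ^ (c * t)) := by
    rw [← h11]
    refine h10.trans (h2.trans (mul_le_mul_of_nonneg_left ?_ hC.le))
    linarith
  have h13 : (N : ℝ) ^ (c * t) * (2 * C) < (N : ℝ) ^ (c * t) * (N : ℝ) ^ ε := by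
    gcongr
  linarith

end Pool.Agent.Helper42.GC
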