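import Pool.Agent.Helper42.GC.Build
import Pool.Agent.Helper76.FX.Pow

/-!
# The grammar complexity of a set of natural numbers
-/

set_option autoImplicit false

open Finset Filter

namespace Pool.Agent.Helper42.GC

open Pool.Agent.Helper76.FX

lemma pre_length (A : Set ℕ) (n : ℕ) : (pre A n).length = n := by
  unfold pre
  simp

lemma gram_le {A : Set ℕ} {N n s : ℕ} (hn : N ≤ n) (h : Gen s (pre A n)) : gram A N ≤ s :=
  Nat.sInf_le ⟨n, hn, h⟩

lemma gram_spec (A : Set ℕ) (N : ℕ) : ∃ n, N ≤ n ∧ Gen (gram A N) (pre A n) := by
  have h : {s | ∃ n, N ≤ n ∧ Gen s (pre A n)}.Nonempty := by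
    refine ⟨_, N + 1, by omega, gen_length ?_⟩
    intro h
    have := pre_length A (N + 1)
    rw [h] at this
    simp at this
  exact Nat.sInf_mem h

lemma mem_ones_pre {A : Set ℕ} {n a : ℕ} : a ∈ ones (pre A n) ↔ a < n ∧ a ∈ A := by
  classical
  rw [mem_ones]
  unfold pre
  rw [List.getElem?_map]
  rcases Nat.lt_or_ge a n with h | h
  · rw [List.getElem?_range h]
    simp [h]
  · rw [List.getElem?_eq_none (by simp [h])]
    simp
    omega

lemma rf_le_rep (A : Set ℕ) (n m : ℕ) : rf (ones (pre A n)) m ≤ rep A m := by
  classical
  unfold rf rep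
  rw [← Set.ncard_coe_finset]
  refine Set.ncard_le_ncard ?_ (rep_finite A m)
  intro p hp
  rw [mem_coe, mem_filter, mem_product, mem_ones_pre, mem_ones_pre] at hp
  exact ⟨hp.1.1.2, hp.1.2.2, hp.2⟩

lemma count_pre (A : Set ℕ) (n : ℕ) : (pre A n).count true = (A ∩ Set.Iio n).ncard := by
  classical
  rw [count_eq, ← Set.ncard_coe_finset]
  congr 1
  ext a
  rw [mem_coe, mem_ones_pre]
  exact ⟨fun h => ⟨h.2, h.1⟩, fun h => ⟨h.2, h.1⟩⟩

/-- **The inequality between the number of elements, the grammar complexity and the representation
function.** -/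
theorem ineq {A : Set ℕ} {t : ℕ} (h : ∀ n, rep A n < 2 ^ (t + 1)) (N : ℕ) :
    (A ∩ Set.Iio N).ncard ≤ gram A N ^ t := by
  obtain ⟨n, hn, hg⟩ := gram_spec A N
  have h1 := gen_bound hg (t := t) fun m => lt_of_le_of_lt (rf_le_rep A n m) (h m)
  rw [count_pre] at h1
  refine le_trans (Set.ncard_le_ncard ?_ ?_) h1
  · rintro x ⟨h1, h2⟩
    exact ⟨h1, lt_of_lt_of_le h2 hn⟩
  · exact (Set.finite_Iio n).subset Set.inter_subset_right

lemma Icc_le (A : Set ℕ) (N : ℕ) : (A ∩ Set.Icc 1 N).ncard ≤ (A ∩ Set.Iio N).ncard + 1 := by
  have h1 : A ∩ Set.Icc 1 N ⊆ insert N (A ∩ Set.Iio N) := by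
    rintro x ⟨hx1, hx2⟩
    rcases eq_or_lt_of_le hx2.2 with h0 | h0
    · left; exact h0
    · right; exact ⟨hx1, h0⟩
  have hfin : (A ∩ Set.Iio N).Finite := (Set.finite_Iio N).subset Set.inter_subset_right
  exact (Set.ncard_le_ncard h1 (hfin.insert N)).trans (Set.ncard_insert_le _ _)

theorem ineq' {A : Set ℕ} {t : ℕ} (h : ∀ n, rep A n < 2 ^ (t + 1)) (N : ℕ) :
    (A ∩ Set.Icc 1 N).ncard ≤ gram A N ^ t + 1 :=
  (Icc_le A N).trans (Nat.add_le_add_right (ineq h N) 1)

/-! ### the sets `dset` -/

/-- the properties of the blocks -/
def PB (q : ℕ → ℕ) (S : ℕ → Finset ℕ) (k l : ℕ) : Option (Finset ℕ) → ℕ → Prop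
  | none, _ => False
  | some U, x => (∀ j < l, dig q x j ∈ S j) ∧
      (∀ i < l, ∀ j < l, dig q x i ≠ 0 → dig q x j ≠ 0 → i % k = j % k → i = j) ∧
      ∀ j < l, dig q x j ≠ 0 → j % k ∉ U

open Classical in
/-- the blocks -/
noncomputable def blk (q : ℕ → ℕ) (S : ℕ → Finset ℕ) (k l : ℕ) (b : Option (Finset ℕ)) :
    List Bool := (List.range (wt q l)).map (fun x => decide (PB q S k l b x))

open Classical in
/-- the states -/
noncomputable def nxt (S : ℕ → Finset ℕ) (k l v : ℕ) : Option (Finset ℕ) → Option (Finset ℕ)
  | none => none
  | some U => if v ∉ S l then none else if v = 0 then some U else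
      if l % k ∈ U then none else some (insert (l % k) U)

lemma nxt_of_notMem {S : ℕ → Finset ℕ} {k l v : ℕ} {U : Finset ℕ} (h : v ∉ S l) :
    nxt S k l v (some U) = none := by
  simp only [nxt, h, not_false_eq_true, if_true]

lemma nxt_of_zero {S : ℕ → Finset ℕ} {k l v : ℕ} {U : Finset ℕ} (h : v ∈ S l) (h0 : v = 0) :
    nxt S k l v (some U) = some U := by
  simp only [nxt, h, not_true_eq_false, if_false, h0, if_true]
  simp [← h0, h]

lemma nxt_of_used {S : ℕ → Finset ℕ} {k l v : ℕ} {U : Finset ℕ} (h : v ∈ S l) (h0 : v ≠ 0)
    (hU : l % k ∈ U) : nxt S k l v (some U) = none := by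
  simp only [nxt, h, not_true_eq_false, if_false, h0, hU, if_true]

lemma nxt_of_free {S : ℕ → Finset ℕ} {k l v : ℕ} {U : Finset ℕ} (h : v ∈ S l) (h0 : v ≠ 0)
    (hU : l % k ∉ U) : nxt S k l v (some U) = some (insert (l % k) U) := by
  classical
  simp only [nxt, h, not_true_eq_false, if_false, h0, hU]

lemma range_mul_map {α : Type*} (a b : ℕ) (g : ℕ → α) : (List.range (a * b)).map g =
    (List.range b).flatMap (fun v => (List.range a).map (fun x => g (v * a + x))) := by
  induction b with
  | zero => simp
  | succ b ih =>
    rw [Nat.mul_succ, List.range_add, List.map_append, ih, List.range_succ, List.flatMap_append]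
    congr 1
    simp only [List.flatMap_cons, List.flatMap_nil, List.append_nil, List.map_map]
    apply List.map_congr_left
    intro x _
    simp only [Function.comp]
    rw [mul_comm]

lemma blk_succ {q : ℕ → ℕ} {S : ℕ → Finset ℕ} (hq : ∀ j, 2 ≤ q j) {k : ℕ} (l : ℕ)
    (b : Option (Finset ℕ)) : blk q S k (l + 1) b =
      ((List.range (q l)).map (fun v => nxt S k l v b)).flatMap (blk q S k l) := by
  classical
  unfold blk
  rw [wt_succ, range_mul_map, List.flatMap_map]
  apply List.flatMap_congr
  intro v hv
  rw [List.mem_range] at hv
  apply List.map_congr_left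
  intro x hx
  rw [List.mem_range] at hx
  congr 1
  have hlow : ∀ j < l, dig q (v * wt q l + x) j = dig q x j := by
    intro j hj
    rw [dig_block hq hx, if_pos hj]
  have htop : dig q (v * wt q l + x) l = v := by
    unfold dig
    rw [mul_comm v, Nat.mul_add_div (wt_pos hq l), Nat.div_eq_of_lt hx, add_zero,
      Nat.mod_eq_of_lt hv]
  apply propext
  match b with
  | none =>
    show False ↔ False
    exact Iff.rfl
  | some U =>
    show PB q S k (l + 1) (some U) (v * wt q l + x) ↔ PB q S k l (nxt S k l v (some U)) x
    by_cases hS : v ∉ S l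
    · rw [nxt_of_notMem hS]
      show _ ↔ False
      refine iff_false_intro fun h => hS ?_
      have := h.1 l (by omega)
      rwa [htop] at this
    · push Not at hS
      by_cases h0 : v = 0
      · rw [nxt_of_zero hS h0]
        constructor
        · rintro ⟨h1, h2, h3⟩
          refine ⟨fun j hj => ?_, fun i hi j hj => ?_, fun j hj => ?_⟩
          · rw [← hlow j hj]; exact h1 j (by omega)
          · rw [← hlow i hi, ← hlow j hj]; exact h2 i (by omega) j (by omega)
          · rw [← hlow j hj]; exact h3 j (by omega)
        · rintro ⟨h1, h2, h3⟩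
          refine ⟨fun j hj => ?_, fun i hi j hj hi0 hj0 => ?_, fun j hj hj0 => ?_⟩
          · rcases Nat.lt_or_ge j l with hjl | hjl
            · rw [hlow j hjl]; exact h1 j hjl
            · have : j = l := by omega
              rw [this, htop]
              exact hS
          · have hil : i < l := by
              rcases Nat.lt_or_ge i l with hil | hil
              · exact hil
              · have : i = l := by omega
                rw [this, htop] at hi0
                exact absurd h0 hi0
            have hjl : j < l := by
              rcases Nat.lt_or_ge j l with hjl | hjl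
              · exact hjl
              · have : j = l := by omega
                rw [this, htop] at hj0
                exact absurd h0 hj0
            rw [hlow i hil] at hi0
            rw [hlow j hjl] at hj0
            exact h2 i hil j hjl hi0 hj0
          · have hjl : j < l := by
              rcases Nat.lt_or_ge j l with hjl | hjl
              · exact hjl
              · have : j = l := by omega
                rw [this, htop] at hj0
                exact absurd h0 hj0
            rw [hlow j hjl] at hj0
            exact h3 j hjl hj0
      · by_cases hU : l % k ∈ U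
        · rw [nxt_of_used hS h0 hU]
          show _ ↔ False
          refine iff_false_intro fun h => h.2.2 l (by omega) ?_ hU
          rw [htop]
          exact h0
        · rw [nxt_of_free hS h0 hU]
          constructor
          · rintro ⟨h1, h2, h3⟩
            refine ⟨fun j hj => ?_, fun i hi j hj => ?_, fun j hj hj0 => ?_⟩
            · rw [← hlow j hj]; exact h1 j (by omega)
            · rw [← hlow i hi, ← hlow j hj]; exact h2 i (by omega) j (by omega)
            · rw [mem_insert, not_or]
              rw [← hlow j hj] at hj0
              refine ⟨fun hcon => ?_, h3 j (by omega) hj0⟩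
              have := h2 j (by omega) l (by omega) hj0 (by rw [htop]; exact h0) hcon
              omega
          · rintro ⟨h1, h2, h3⟩
            have h3' : ∀ j < l, dig q x j ≠ 0 → j % k ≠ l % k ∧ j % k ∉ U := by
              intro j hj hj0
              have := h3 j hj hj0
              rw [mem_insert, not_or] at this
              exact this
            refine ⟨fun j hj => ?_, fun i hi j hj hi0 hj0 hij => ?_, fun j hj hj0 => ?_⟩
            · rcases Nat.lt_or_ge j l with hjl | hjl
              · rw [hlow j hjl]; exact h1 j hjl
              · have : j = l := by omega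
                rw [this, htop]
                exact hS
            · rcases Nat.lt_or_ge i l with hil | hil
              · rw [hlow i hil] at hi0
                rcases Nat.lt_or_ge j l with hjl | hjl
                · rw [hlow j hjl] at hj0
                  exact h2 i hil j hjl hi0 hj0 hij
                · have : j = l := by omega
                  rw [this] at hij
                  exact absurd hij (h3' i hil hi0).1
              · have hi' : i = l := by omega
                rcases Nat.lt_or_ge j l with hjl | hjl
                · rw [hlow j hjl] at hj0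
                  rw [hi'] at hij
                  exact absurd hij.symm (h3' j hjl hj0).1
                · omega
            · rcases Nat.lt_or_ge j l with hjl | hjl
              · rw [hlow j hjl] at hj0
                exact (h3' j hjl hj0).2
              · have : j = l := by omega
                rw [this]
                exact hU

lemma pre_dset {q : ℕ → ℕ} {S : ℕ → Finset ℕ} (h : Good q S) {k : ℕ} (l : ℕ) :
    pre (dset q S k) (wt q l) = blk q S k l (some ∅) := by
  classical
  unfold pre blk
  apply List.map_congr_left
  intro x hx
  rw [List.mem_range] at hx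
  congr 1
  apply propext
  have hhigh : ∀ j, l ≤ j → dig q x j = 0 := by
    intro j hj
    unfold dig
    rw [Nat.div_eq_of_lt (lt_of_lt_of_le hx (wt_mono h.two hj)), Nat.zero_mod]
  constructor
  · rintro ⟨h1, h2⟩
    exact ⟨fun j _ => h1 j, fun i _ j _ => h2 i j, fun j _ _ => by simp⟩
  · rintro ⟨h1, h2, -⟩
    refine ⟨fun j => ?_, fun i j hi0 hj0 => ?_⟩
    · rcases Nat.lt_or_ge j l with hjl | hjl
      · exact h1 j hjl
      · rw [hhigh j hjl]
        exact h.zero j
    · have hil : i < l := by
        by_contra hcon
        exact hi0 (hhigh i (not_lt.1 hcon))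
      have hjl : j < l := by
        by_contra hcon
        exact hj0 (hhigh j (not_lt.1 hcon))
      exact h2 i hil j hjl hi0 hj0

open Classical in
/-- the states -/
noncomputable def states (k : ℕ) : Finset (Option (Finset ℕ)) :=
  insert none ((range k).powerset.image some)

lemma card_states (k : ℕ) : (states k).card ≤ 2 ^ k + 1 := by
  classical
  unfold states
  refine (card_insert_le _ _).trans (Nat.add_le_add_right (card_image_le.trans ?_) 1)
  rw [card_powerset, card_range]

theorem gram_dset {q : ℕ → ℕ} {S : ℕ → Finset ℕ} (h : Good q S) {k : ℕ} (hk : 1 ≤ k) (l : ℕ) {N : ℕ}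
    (hN : N ≤ wt q l) :
    gram (dset q S k) N ≤ 2 + (2 ^ k + 1) * ∑ j ∈ range l, q j := by
  classical
  have h1 := layered (states k) (blk q S k) (fun l b => (List.range (q l)).map
    (fun v => nxt S k l v b)) q (by
      intro b _
      refine ⟨decide (PB q S k 0 b 0), ?_⟩
      unfold blk
      rw [wt_zero]
      rfl) (fun l b _ => blk_succ h.two l b) (by
      intro l b hb c hc
      rw [List.mem_map] at hc
      obtain ⟨v, _, rfl⟩ := hc
      match b with
      | none =>
        show none ∈ states k
        exact mem_insert_self _ _
      | some U =>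
        have hU : U ⊆ range k := by
          unfold states at hb
          rw [mem_insert, mem_image] at hb
          rcases hb with hb | ⟨V, hV, hVU⟩
          · exact absurd hb (by simp)
          · rw [Option.some_inj] at hVU
            rw [← hVU]
            exact mem_powerset.1 hV
        by_cases hS : v ∉ S l
        · rw [nxt_of_notMem hS]
          exact mem_insert_self _ _
        · push Not at hS
          by_cases h0 : v = 0
          · rw [nxt_of_zero hS h0]
            exact hb
          · by_cases hU' : l % k ∈ U
            · rw [nxt_of_used hS h0 hU']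
              exact mem_insert_self _ _
            · rw [nxt_of_free hS h0 hU']
              refine mem_insert_of_mem (mem_image.2 ⟨_, mem_powerset.2 ?_, rfl⟩)
              refine insert_subset (mem_range.2 (Nat.mod_lt _ (by omega))) hU) (by
      intro l b _
      simp) l
  have h2 : Gen (2 + (states k).card * ∑ j ∈ range l, q j) (pre (dset q S k) (wt q l)) := by
    rw [pre_dset h]
    refine h1.gen ⟨⟨some ∅, mem_insert_of_mem (mem_image.2 ⟨∅, by simp, rfl⟩), rfl⟩, ?_⟩
    intro hcon
    have h3 : (blk q S k l (some ∅)).length = wt q l := by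
      unfold blk
      simp
    rw [hcon] at h3
    have := wt_pos h.two l
    simp at h3
    omega
  refine (gram_le hN h2).trans (Nat.add_le_add_left (Nat.mul_le_mul_right _ (card_states k)) 2)

end Pool.Agent.Helper42.GC
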