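import Pool.Agent.Helper42.GC.Thr
import Pool.Graph.R_pool_sql_team_seeded_3997aac3.Q208.CF.Thresh

/-!
# Sets given by substitutions
-/

set_option autoImplicit false

open Finset Filter

namespace Pool.Agent.Helper42.GC

open Pool.Agent.Helper76.FX

theorem IsMorphic.adic {A : Set ℕ} (h : IsMorphic A) : IsAdic A := by
  obtain ⟨α, hα, s, a, P, c, h1, h2, h3, h4⟩ := h
  refine ⟨α, hα, fun _ => s, a, P, univ.sup fun b => (s b).length, c, fun _ b => ?_, fun _ => h1, h2,
    h3, h4⟩
  exact Finset.le_sup (f := fun b => (s b).length) (mem_univ b)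

section
variable {α : Type} {s : ℕ → α → List α} {a : α}

lemma prefix_succ (h : ∀ k, ∃ v, s k a = a :: v) (k : ℕ) : iter s k a <+: iter s (k + 1) a := by
  obtain ⟨v, hv⟩ := h k
  rw [iter, hv, List.flatMap_cons]
  exact List.prefix_append _ _

lemma prefix_le (h : ∀ k, ∃ v, s k a = a :: v) {k k' : ℕ} (hk : k ≤ k') :
    iter s k a <+: iter s k' a := by
  induction k' with
  | zero =>
    rw [show k = 0 by omega]
  | succ k' ih =>
    rcases Nat.lt_or_ge k' k with h1 | h1
    · rw [show k = k' + 1 by omega]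
    · exact (ih h1).trans (prefix_succ h k')

lemma getElem?_of_prefix {u v : List α} (h : u <+: v) {n : ℕ} {b : α} (hb : u[n]? = some b) :
    v[n]? = some b := by
  obtain ⟨t, rfl⟩ := h
  rw [List.getElem?_append_left (by
    rw [List.getElem?_eq_some_iff] at hb
    exact hb.1)]
  exact hb

lemma mem_places (h : ∀ k, ∃ v, s k a = a :: v) {P : Set α} {n k : ℕ} {b : α}
    (hb : (iter s k a)[n]? = some b) : n ∈ places s a P ↔ b ∈ P := by
  constructor
  · rintro ⟨k', b', hb', h2⟩
    rcases Nat.le_total k k' with hk | hk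
    · have h3 := getElem?_of_prefix (prefix_le h hk) hb
      rw [h2] at h3
      rw [← Option.some.inj h3]
      exact hb'
    · have h3 := getElem?_of_prefix (prefix_le h hk) h2
      rw [hb] at h3
      rw [Option.some.inj h3]
      exact hb'
  · exact fun hb' => ⟨k, b, hb', hb⟩

end

theorem IsAdic.logG {A : Set ℕ} (hA : IsAdic A) : Logarithmic A := by
  classical
  obtain ⟨α, hα, s, a, P, M, c, hM, h, hc, hgrow, rfl⟩ := hA
  have h1 := layered (univ : Finset α) (fun k b => (iter s k b).map fun b => decide (b ∈ P)) s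
    (fun _ => M) (fun b _ => ⟨decide (b ∈ P), rfl⟩) (fun l b _ => by
      rw [iter, List.map_flatMap]) (fun _ _ _ _ _ => mem_univ _) (fun l b _ => hM l b)
  have hpre : ∀ k, pre (places s a P) (iter s k a).length =
      (iter s k a).map fun b => decide (b ∈ P) := by
    intro k
    apply List.ext_getElem?
    intro n
    unfold pre
    rw [List.getElem?_map, List.getElem?_map]
    rcases Nat.lt_or_ge n (iter s k a).length with hn | hn
    · rw [List.getElem?_range hn, List.getElem?_eq_getElem hn]
      simp only [Option.map_some]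
      congr 1
      have h2 := mem_places h (P := P) (n := n) (k := k) (List.getElem?_eq_getElem hn)
      exact decide_eq_decide.2 h2
    · rw [List.getElem?_eq_none (by simpa using hn), List.getElem?_eq_none hn]
      rfl
  have hgram : ∀ k N, 1 ≤ N → N ≤ (iter s k a).length →
      gram (places s a P) N ≤ 2 + Fintype.card α * (k * M) := by
    intro k N hN1 hN
    have h2 : Gen (2 + Fintype.card α * (k * M)) (pre (places s a P) (iter s k a).length) := by
      have h3 := (h1 k).gen (w := (iter s k a).map fun b => decide (b ∈ P)) ⟨⟨a, mem_univ a, rfl⟩, by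
        intro hcon
        have h4 : ((iter s k a).map fun b => decide (b ∈ P)).length = 0 := by
          rw [hcon]
          rfl
        rw [List.length_map] at h4
        omega⟩
      rw [Finset.sum_const, card_range, smul_eq_mul, card_univ] at h3
      rw [hpre]
      exact h3
    exact gram_le hN h2
  have hlc : 0 < Real.log c := Real.log_pos hc
  refine ⟨2 + (Fintype.card α * M) * (1 / Real.log c + 1), ?_⟩
  obtain ⟨k0, hk0⟩ := eventually_atTop.1 hgrow
  have hc0 : (0 : ℝ) < c := by linarith
  filter_upwards [eventually_ge_atTop 3, eventually_ge_atTop ⌈c ^ (k0 + 1)⌉₊] with N hN hN2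
  have hlog := one_le_log hN
  obtain ⟨k, hk⟩ : ∃ k, k = ⌈Real.log N / Real.log c⌉₊ := ⟨_, rfl⟩
  have h2 : Real.log N / Real.log c ≤ k := by
    rw [hk]
    exact Nat.le_ceil _
  have hN0 : (0 : ℝ) < N := by
    have : 0 < N := by omega
    exact_mod_cast this
  have h3 : (N : ℝ) ≤ c ^ k := by
    rw [div_le_iff₀ hlc, ← Real.log_pow] at h2
    exact (Real.log_le_log_iff hN0 (by positivity)).1 h2
  have h4 : (k : ℝ) ≤ Real.log N / Real.log c + 1 := by
    rw [hk]
    exact (Nat.ceil_lt_add_one (by positivity)).le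
  have h5 : k0 ≤ k := by
    by_contra hcon
    push Not at hcon
    have h6 : c ^ (k0 + 1) ≤ (N : ℝ) := (Nat.le_ceil _).trans (by exact_mod_cast hN2)
    have h7 : c ^ k < c ^ (k0 + 1) := pow_lt_pow_right₀ hc (by omega)
    linarith
  have h6 : N ≤ (iter s k a).length := by
    exact_mod_cast h3.trans (hk0 k h5)
  have h7 : (gram (places s a P) N : ℝ) ≤ 2 + Fintype.card α * (k * M) := by
    exact_mod_cast hgram k N (by omega) h6
  refine h7.trans ?_
  have h8 : (k : ℝ) ≤ (1 / Real.log c + 1) * Real.log N := by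
    rw [add_mul, one_mul, div_mul_eq_mul_div, one_mul]
    linarith
  have h9 : (0 : ℝ) ≤ Fintype.card α * M := by positivity
  calc (2 : ℝ) + Fintype.card α * (k * M) = 2 + (Fintype.card α * M) * k := by ring
    _ ≤ 2 * Real.log N + (Fintype.card α * M) * ((1 / Real.log c + 1) * Real.log N) := by
        gcongr
        linarith
    _ = (2 + (Fintype.card α * M) * (1 / Real.log c + 1)) * Real.log N := by ring

/-! ### the sets of numbers with few binary digits one -/

lemma iter_const {α : Type} (s : α → List α) (k : ℕ) (b : α) :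
    iter (fun _ => s) (k + 1) b = (iter (fun _ => s) k b).flatMap s := by
  induction k generalizing b with
  | zero => simp [iter]
  | succ k ih =>
    rw [iter]
    have h1 : (fun b => iter (fun _ => s) (k + 1) b) =
        fun b => (iter (fun _ => s) k b).flatMap s := by
      funext b
      exact ih b
    change (s b).flatMap (fun b => iter (fun _ => s) (k + 1) b) = _
    rw [h1, ← List.flatMap_assoc]
    rfl

/-- the substitution -/
def sub (k : ℕ) (j : Fin (k + 2)) : List (Fin (k + 2)) := [j, ⟨min (j + 1) (k + 1), by omega⟩]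

lemma getElem?_sub (k : ℕ) (w : List (Fin (k + 2))) : ∀ n : ℕ, (w.flatMap (sub k))[n]? =
    (w[n / 2]?).map (fun b => if n % 2 = 0 then b else ⟨min (b + 1) (k + 1), by omega⟩) := by
  induction w with
  | nil => intro n; simp
  | cons b w ih =>
    intro n
    rw [List.flatMap_cons]
    rcases n with _ | _ | n
    · simp [sub]
    · simp [sub]
    · have h1 : (n + 1 + 1) / 2 = n / 2 + 1 := by omega
      have h2 : (n + 1 + 1) % 2 = n % 2 := by omega
      rw [h1, h2, List.getElem?_cons_succ, ← ih n]
      unfold sub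
      rfl

lemma length_iter (k m : ℕ) (b : Fin (k + 2)) : (iter (fun _ => sub k) m b).length = 2 ^ m := by
  induction m generalizing b with
  | zero => rfl
  | succ m ih =>
    rw [iter]
    unfold sub
    simp only [List.flatMap_cons, List.flatMap_nil, List.append_nil, List.length_append]
    have h1 := ih b
    have h2 := ih ⟨min (b + 1) (k + 1), by omega⟩
    unfold sub at h1 h2
    rw [h1, h2, pow_succ]
    ring

lemma digit_sum (n : ℕ) : (Nat.digits 2 n).sum = n % 2 + (Nat.digits 2 (n / 2)).sum := by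
  rcases Nat.eq_zero_or_pos n with h | h
  · rw [h]
    simp
  · rw [Nat.digits_def' (by norm_num) h, List.sum_cons]

lemma letter (k m : ℕ) (b : Fin (k + 2)) : ∀ n, n < 2 ^ m → (iter (fun _ => sub k) m b)[n]? =
    some ⟨min (b + (Nat.digits 2 n).sum) (k + 1), by omega⟩ := by
  induction m with
  | zero =>
    intro n hn
    have : n = 0 := by simpa using hn
    rw [this]
    simp only [iter, Nat.digits_zero, List.sum_nil, add_zero, List.getElem?_cons_zero]
    congr 1
    ext
    have := b.2
    simp only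
    omega
  | succ m ih =>
    intro n hn
    rw [iter_const, getElem?_sub, ih (n / 2) (by rw [pow_succ] at hn; omega), Option.map_some]
    congr 1
    have hd := digit_sum n
    rcases Nat.mod_two_eq_zero_or_one n with h | h
    · rw [if_pos h]
      ext
      simp only
      omega
    · rw [if_neg (by omega)]
      ext
      simp only
      omega

theorem morphic_PP (k : ℕ) : IsMorphic (Q123.CU.PP k) := by
  refine ⟨Fin (k + 2), inferInstance, sub k, ⟨0, by omega⟩, {j | j.1 ≤ k}, 2, ⟨_, rfl⟩, by norm_num,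
    ?_, ?_⟩
  · refine Eventually.of_forall fun m => ?_
    rw [length_iter]
    push_cast
    exact le_rfl
  · ext n
    rw [Pool.Agent.Q208.CF.Th.mem_PP]
    have h1 : ∀ k', ∃ v, (fun _ : ℕ => sub k) k' ⟨0, by omega⟩ = (⟨0, by omega⟩ : Fin (k + 2)) :: v :=
      fun _ => ⟨_, rfl⟩
    have h2 := letter k n ⟨0, by omega⟩ n Nat.lt_two_pow_self
    rw [mem_places h1 h2]
    simp only [zero_add, Set.mem_ofPred_eq]
    omega

/-! ### the thresholds -/

lemma rep_mono {A B : Set ℕ} (h : B ⊆ A) (n : ℕ) : rep B n ≤ rep A n := by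
  unfold rep
  refine Set.ncard_le_ncard ?_ (rep_finite A n)
  rintro p ⟨h1, h2, h3⟩
  exact ⟨h h1, h h2, h3⟩

theorem unions_upper {A : Set ℕ} {R : ℕ} (hA : Unions Logarithmic A) (hr : ∀ n, rep A n ≤ R) :
    ∃ C : ℝ, 0 ≤ C ∧ ∀ᶠ N : ℕ in atTop,
      ((A ∩ Set.Icc 1 N).ncard : ℝ) ≤ C * Real.log N ^ Nat.log 2 R := by
  obtain ⟨m, B, hB, rfl⟩ := hA
  have h1 : ∀ i, ∃ C : ℝ, 0 < C ∧ ∀ᶠ N : ℕ in atTop,
      ((B i ∩ Set.Icc 1 N).ncard : ℝ) ≤ C * Real.log N ^ Nat.log 2 R := fun i =>
    log_upper (hB i) fun n => (rep_mono (Set.subset_iUnion B i) n).trans (hr n)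
  choose C hC hup using h1
  refine ⟨∑ i, C i, Finset.sum_nonneg fun i _ => (hC i).le, ?_⟩
  filter_upwards [eventually_all.2 hup] with N hN
  have h2 : ((⋃ i, B i) ∩ Set.Icc 1 N).ncard ≤ ∑ i, (B i ∩ Set.Icc 1 N).ncard := by
    rw [Set.iUnion_inter]
    exact Set.ncard_iUnion_le_of_fintype _
  have h3 : (((⋃ i, B i) ∩ Set.Icc 1 N).ncard : ℝ) ≤ ∑ i, ((B i ∩ Set.Icc 1 N).ncard : ℝ) := by
    exact_mod_cast h2
  refine h3.trans ?_
  rw [Finset.sum_mul]
  exact Finset.sum_le_sum fun i _ => hN i

/-- the same thresholds for all classes between the morphic sets and the finite unions of sets of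
logarithmic grammar complexity -/
theorem unions_thr {𝒞 : Set ℕ → Prop} (h1 : ∀ A, IsMorphic A → 𝒞 A)
    (h2 : ∀ A, 𝒞 A → Unions Logarithmic A) (g : ℕ → ℝ) : ForcesIn 𝒞 g ↔
    ∀ (k : ℕ) (C : ℝ), ∃ᶠ N : ℕ in atTop, C * Real.log N ^ k < Real.sqrt N / g N := by
  constructor
  · intro hF k C hcon
    simp only [not_lt] at hcon
    obtain ⟨C', hC', hcnt⟩ := Pool.Agent.Q208.CF.Th.PP_count (k := k + 1) (by omega)
    obtain ⟨M, hM⟩ := Q123.CU.rep_PP (k + 1)
    have hdense : Dense g (Q123.CU.PP (k + 1)) := by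
      refine ⟨(|C| + 1) * C', by positivity, ?_⟩
      filter_upwards [hcon, hcnt, eventually_ge_atTop 3] with N h1 h2 h3
      have hlog := one_le_log h3
      have h4 : Real.log N ^ k ≤ Real.log N ^ (k + 1) := pow_le_pow_right₀ hlog (by omega)
      have h5 : (0 : ℝ) ≤ Real.log N ^ k := by positivity
      calc Real.sqrt N / g N ≤ C * Real.log N ^ k := h1
        _ ≤ (|C| + 1) * Real.log N ^ k := by
            gcongr
            linarith [le_abs_self C]
        _ ≤ (|C| + 1) * Real.log N ^ (k + 1) := by gcongr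
        _ ≤ (|C| + 1) * (C' * ((Q123.CU.PP (k + 1) ∩ Set.Icc 1 N).ncard : ℝ)) := by
            gcongr
            exact h2
        _ = _ := by ring
    obtain ⟨n, hn⟩ := hF _ (h1 _ (morphic_PP (k + 1))) hdense M
    have h6 : rep (Q123.CU.PP (k + 1)) n =
        Q123.ET.rep (Q123.CU.PP (k + 1)) n :=
      Pool.Agent.Q208.CF.Th.rep_eq _ n
    have := hM n
    omega
  · intro h A hA hD K
    by_contra hcon
    push Not at hcon
    obtain ⟨C, hC, hup⟩ := unions_upper (h2 A hA) hcon
    obtain ⟨C', hC', hD⟩ := hD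
    obtain ⟨N, h1, h2, h3⟩ := ((h (Nat.log 2 K) (C' * C)).and_eventually (hup.and hD)).exists
    have : Real.sqrt N / g N ≤ C' * (C * Real.log N ^ Nat.log 2 K) :=
      h3.trans (mul_le_mul_of_nonneg_left h2 hC'.le)
    rw [← mul_assoc] at this
    linarith

end Pool.Agent.Helper42.GC
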