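import Pool.Agent.Helper42.GC.Gram

/-!
# The thresholds for sets of given grammar complexity

The constructions of `Pool.Agent.Helper76.FX` (sets `dset`) with their grammar complexity.
-/

set_option autoImplicit false

open Finset Filter

namespace Pool.Agent.Helper42.GC

open Pool.Agent.Helper76.FX

theorem construct' {h : ℕ → ℕ} (hmono : Monotone h) (h1 : ∀ x, 1 ≤ h x) {k : ℕ} (hk : 1 ≤ k) :
    ∃ A : Set ℕ, (∀ n, rep A n ≤ 2 ^ k) ∧
      (∀ N, 1 ≤ N → gram A N ≤ 2 ^ (k + 3) * (h N * (Nat.log 2 N + 1))) ∧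
      ∀ i, ∏ c ∈ range k, h (W h (i + c)) ≤ 32 ^ k * (A ∩ Set.Iio (W h (i + k))).ncard ^ 2 := by
  refine ⟨dset (rad h) (fun j => sid (h (W h j))) k, rep_dset (good_rad h1) hk, ?_, ?_⟩
  · intro N hN
    obtain ⟨l, hl1, hl2⟩ := exists_index h1 hN
    have h3 := gram_dset (good_rad h1) hk (l + 1) (N := N) (by rw [wt_rad]; exact hl2.le)
    have h4 : ∑ j ∈ range (l + 1), rad h j ≤ (l + 1) * (2 * h N) := by
      have h5 := Finset.sum_le_card_nsmul (range (l + 1)) (rad h) (2 * h N) (by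
        intro j hj
        rw [mem_range] at hj
        show 2 * h (W h j) ≤ 2 * h N
        exact Nat.mul_le_mul_left _ (hmono ((W_mono h1 (by omega : j ≤ l)).trans hl1)))
      rw [card_range, smul_eq_mul] at h5
      exact h5
    have h5 : l ≤ Nat.log 2 N := by
      rw [Nat.le_log_iff_pow_le (by norm_num) (by omega)]
      exact (W_ge h1 l).trans hl1
    obtain ⟨X, hX⟩ : ∃ X, X = h N * (Nat.log 2 N + 1) := ⟨_, rfl⟩
    have hX1 : 1 ≤ X := by
      rw [hX]
      exact Nat.mul_pos (h1 N) (by omega)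
    have h6 : (l + 1) * (2 * h N) ≤ 2 * X := by
      rw [hX]
      calc (l + 1) * (2 * h N) ≤ (Nat.log 2 N + 1) * (2 * h N) := Nat.mul_le_mul_right _ (by omega)
        _ = 2 * (h N * (Nat.log 2 N + 1)) := by ring
    rw [← hX]
    have h7 : 1 ≤ 2 ^ k := Nat.one_le_two_pow
    calc gram (dset (rad h) (fun j => sid (h (W h j))) k) N
        ≤ 2 + (2 ^ k + 1) * ∑ j ∈ range (l + 1), rad h j := h3
      _ ≤ 2 + (2 ^ k + 1) * (2 * X) := Nat.add_le_add_left (Nat.mul_le_mul_left _ (h4.trans h6)) _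
      _ ≤ 2 ^ (k + 3) * X := by
        rw [pow_add]
        nlinarith [Nat.mul_le_mul h7 hX1]
  · intro i
    have h3 := count_consecutive (good_rad h1) (k := k) i
    rw [wt_rad] at h3
    have h4 : ∏ c ∈ range k, h (W h (i + c)) ≤
        ∏ c ∈ range k, (32 * (sid (h (W h (i + c)))).card ^ 2) :=
      Finset.prod_le_prod' (fun c _ => (sid_spec (h1 _)).2.2.2)
    rw [Finset.prod_mul_distrib, Finset.prod_const, card_range, Finset.prod_pow] at h4
    refine h4.trans (Nat.mul_le_mul_left _ (Nat.pow_le_pow_left h3 2))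

/-! ### logarithmic grammar complexity -/

theorem log_upper {A : Set ℕ} {R : ℕ} (hA : Logarithmic A) (hr : ∀ n, rep A n ≤ R) :
    ∃ C : ℝ, 0 < C ∧ ∀ᶠ N : ℕ in atTop,
      ((A ∩ Set.Icc 1 N).ncard : ℝ) ≤ C * Real.log N ^ Nat.log 2 R := by
  obtain ⟨C, hC⟩ := hA
  obtain ⟨t, ht⟩ : ∃ t, t = Nat.log 2 R := ⟨_, rfl⟩
  refine ⟨|C| ^ t + 1, by positivity, ?_⟩
  filter_upwards [hC, eventually_ge_atTop 3] with N h1 h2
  have h3 := one_le_log h2
  have h4 := ineq' (A := A) (t := t) (fun n => lt_of_le_of_lt (hr n) (by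
    rw [ht]; exact Nat.lt_pow_succ_log_self (by norm_num) R)) N
  have h5 : ((A ∩ Set.Icc 1 N).ncard : ℝ) ≤ (gram A N : ℝ) ^ t + 1 := by exact_mod_cast h4
  have h6 : (gram A N : ℝ) ≤ |C| * Real.log N :=
    h1.trans (mul_le_mul_of_nonneg_right (le_abs_self C) (by linarith))
  have h7 : (gram A N : ℝ) ^ t ≤ (|C| * Real.log N) ^ t := pow_le_pow_left₀ (by positivity) h6 t
  have h8 : 1 ≤ Real.log N ^ t := one_le_pow₀ h3
  rw [mul_pow] at h7
  rw [← ht]
  linarith

theorem log_dset (k : ℕ) (hk : 1 ≤ k) : Logarithmic (dset (fun _ => 4) (fun _ => {0, 1}) k) := by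
  refine ⟨2 + (2 ^ k + 1) * 12, ?_⟩
  filter_upwards [eventually_ge_atTop 3] with N hN
  have hlog := one_le_log hN
  obtain ⟨l, hl⟩ : ∃ l, l = Nat.log 4 N + 1 := ⟨_, rfl⟩
  have h1 := gram_dset good_four hk l (N := N) (by
    rw [wt_four, hl]
    exact (Nat.lt_pow_succ_log_self (by norm_num) N).le)
  rw [Finset.sum_const, card_range, smul_eq_mul] at h1
  have h2 : (4 : ℝ) ^ Nat.log 4 N ≤ N := by
    exact_mod_cast Nat.pow_log_le_self 4 (x := N) (by omega)
  have h3 : (Nat.log 4 N : ℝ) ≤ Real.log N := by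
    have h4 := Real.log_le_log (by positivity) h2
    rw [Real.log_pow] at h4
    have h5 : (1 : ℝ) ≤ Real.log 4 := by
      rw [show (4 : ℝ) = 2 ^ 2 by norm_num, Real.log_pow]
      have := Real.log_two_gt_d9
      push_cast
      linarith
    have h6 : (0 : ℝ) ≤ Nat.log 4 N := Nat.cast_nonneg _
    nlinarith
  have h4 : (l : ℝ) ≤ 2 * Real.log N := by
    rw [hl]
    push_cast
    linarith
  have h5 : (gram (dset (fun _ => 4) (fun _ => {0, 1}) k) N : ℝ) ≤
      2 + (2 ^ k + 1) * (l * 4) := by exact_mod_cast h1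
  have h6 : (0 : ℝ) ≤ 2 ^ k + 1 := by positivity
  nlinarith

theorem log_thr (g : ℕ → ℝ) : ForcesIn Logarithmic g ↔
    ∀ (k : ℕ) (C : ℝ), ∃ᶠ N : ℕ in atTop, C * Real.log N ^ k < Real.sqrt N / g N := by
  constructor
  · intro hF k C hcon
    simp only [not_lt] at hcon
    obtain ⟨c, hc, hlow⟩ := linear_lower (k + 1) (by omega)
    have hdense : Dense g (dset (fun _ => 4) (fun _ => {0, 1}) (k + 1)) := by
      refine ⟨(|C| + 1) / c, by positivity, ?_⟩
      filter_upwards [hcon, hlow, eventually_ge_atTop 3] with N h1 h2 h3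
      have hlog := one_le_log h3
      have h4 : Real.log N ^ k ≤ Real.log N ^ (k + 1) := pow_le_pow_right₀ hlog (by omega)
      have h5 : (0 : ℝ) ≤ Real.log N ^ k := by positivity
      calc Real.sqrt N / g N ≤ C * Real.log N ^ k := h1
        _ ≤ (|C| + 1) * Real.log N ^ k := by
            gcongr
            linarith [le_abs_self C]
        _ ≤ (|C| + 1) * Real.log N ^ (k + 1) := by gcongr
        _ = (|C| + 1) / c * (c * Real.log N ^ (k + 1)) := by field_simp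
        _ ≤ _ := by gcongr
    obtain ⟨n, hn⟩ := hF _ (log_dset (k + 1) (by omega)) hdense (2 ^ (k + 1))
    have := rep_dset good_four (k := k + 1) (by omega) n
    omega
  · intro h A hA hD K
    by_contra hcon
    push Not at hcon
    obtain ⟨C, hC, hup⟩ := log_upper hA hcon
    obtain ⟨C', hC', hD⟩ := hD
    obtain ⟨N, h1, h2, h3⟩ := ((h (Nat.log 2 K) (C' * C)).and_eventually (hup.and hD)).exists
    have : Real.sqrt N / g N ≤ C' * (C * Real.log N ^ Nat.log 2 K) :=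
      h3.trans (mul_le_mul_of_nonneg_left h2 hC'.le)
    rw [← mul_assoc] at this
    linarith

/-! ### general classes -/

section
variable {φ : ℕ → ℝ} (hmono : Monotone φ) (hlog : ∀ᶠ N : ℕ in atTop, Real.log N ≤ φ N)
include hmono hlog

omit hmono in
theorem clG_upper {A : Set ℕ} (hA : Scale φ A) {R : ℕ} (hr : ∀ n, rep A n ≤ R) :
    ∃ E : ℕ, ∀ᶠ N : ℕ in atTop, ((A ∩ Set.Icc 1 N).ncard : ℝ) ≤ φ N ^ E := by
  obtain ⟨C, hC⟩ := hA
  obtain ⟨t, ht⟩ : ∃ t, t = Nat.log 2 R := ⟨_, rfl⟩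
  refine ⟨C * t + 1, ?_⟩
  filter_upwards [hC, (phi_tendsto hlog).eventually_ge_atTop 2] with N h1 h2
  have h4 := ineq' (A := A) (t := t) (fun n => lt_of_le_of_lt (hr n) (by
    rw [ht]; exact Nat.lt_pow_succ_log_self (by norm_num) R)) N
  have h5 : ((A ∩ Set.Icc 1 N).ncard : ℝ) ≤ (gram A N : ℝ) ^ t + 1 := by exact_mod_cast h4
  have h6 : (gram A N : ℝ) ^ t ≤ φ N ^ (C * t) := by
    rw [pow_mul]
    exact pow_le_pow_left₀ (by positivity) h1 t
  have h7 : 1 ≤ φ N ^ (C * t) := one_le_pow₀ (by linarith)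
  calc ((A ∩ Set.Icc 1 N).ncard : ℝ) ≤ φ N ^ (C * t) + 1 := by linarith
    _ ≤ 2 * φ N ^ (C * t) := by linarith
    _ ≤ φ N * φ N ^ (C * t) := by gcongr
    _ = φ N ^ (C * t + 1) := by ring

omit hmono hlog in
lemma log_two_le {N : ℕ} (hN : 3 ≤ N) : ((Nat.log 2 N : ℕ) : ℝ) + 1 ≤ 3 * Real.log N := by

  have h1 : (2 : ℝ) ^ Nat.log 2 N ≤ N := by exact_mod_cast Nat.pow_log_le_self 2 (by omega)
  have h2 : (Nat.log 2 N : ℝ) * Real.log 2 ≤ Real.log N := by
    rw [← Real.log_pow]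
    exact Real.log_le_log (by positivity) h1
  have h3 := Real.log_two_gt_d9
  have h4 := one_le_log hN
  have h5 : (0 : ℝ) ≤ Nat.log 2 N := Nat.cast_nonneg _
  nlinarith

theorem clG_lower {c : ℕ} (hsq : ∀ᶠ N : ℕ in atTop, φ (N ^ 2) ≤ φ N ^ c)
    (hsmall : ∀ ε : ℝ, 0 < ε → ∀ᶠ N : ℕ in atTop, φ N ≤ (N : ℝ) ^ ε) (C : ℕ) :
    ∃ A : Set ℕ, Scale φ A ∧ (∃ R : ℕ, ∀ n, rep A n ≤ R) ∧
      ∀ᶠ N : ℕ in atTop, φ N ^ C ≤ ((A ∩ Set.Icc 1 N).ncard : ℝ) := by
  set k := c * C + 1 with hk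
  have htend := phi_tendsto hlog
  obtain ⟨A, hA1, hA2, hA3⟩ := construct' (hf_mono hmono) (hf_pos (φ := φ)) (k := k) (by omega)
  refine ⟨A, ⟨4, ?_⟩, ⟨2 ^ k, hA1⟩, ?_⟩
  · filter_upwards [htend.eventually_ge_atTop 1, htend.eventually_ge_atTop (15 * 2 ^ (k + 3)),
      eventually_ge_atTop 3, hlog] with L h1 h2 h3 h5
    have h4 : (gram A L : ℝ) ≤ 2 ^ (k + 3) * (hf φ L * ((Nat.log 2 L : ℕ) + 1)) := by
      exact_mod_cast hA2 L (by omega)
    refine h4.trans ?_
    have h6 : ((Nat.log 2 L : ℕ) : ℝ) + 1 ≤ 3 * φ L := by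
      have := log_two_le h3
      linarith
    calc (2 : ℝ) ^ (k + 3) * (hf φ L * ((Nat.log 2 L : ℕ) + 1))
        ≤ 2 ^ (k + 3) * ((5 * φ L ^ 2) * (3 * φ L)) := by
          gcongr
          exact hf_le h1
      _ = (15 * 2 ^ (k + 3)) * φ L ^ 3 := by ring
      _ ≤ φ L * φ L ^ 3 := by gcongr
      _ = φ L ^ 4 := by ring
  · -- the good `z`
    have hsq2 : Tendsto (fun z : ℕ => z ^ 2) atTop atTop :=
      tendsto_pow_atTop (by norm_num)
    have hb : ∀ᶠ z : ℕ in atTop, (2 * hf φ (z ^ 2)) ^ (k + 1) ≤ z := by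
      have hε : (0 : ℝ) < 1 / (8 * (k + 1)) := by positivity
      filter_upwards [hsq2.eventually (hsmall _ hε), hsq2.eventually (htend.eventually_ge_atTop 1),
        eventually_ge_atTop (100 ^ (k + 1))] with z h1 h2 h3
      have hz : (0 : ℝ) < z := by
        have : 0 < z := lt_of_lt_of_le (by positivity) h3
        exact_mod_cast this
      have h4 : ((2 * hf φ (z ^ 2) : ℕ) : ℝ) ≤ 10 * φ (z ^ 2) ^ 2 := by
        push_cast
        have := hf_le h2
        linarith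
      have h5 : (φ (z ^ 2) ^ 2) ^ (k + 1) ≤ (z : ℝ) ^ (1 / 2 : ℝ) := by
        have h6 : φ (z ^ 2) ≤ (z : ℝ) ^ (2 * (1 / (8 * ((k : ℝ) + 1)))) := by
          refine h1.trans (le_of_eq ?_)
          push_cast
          rw [Real.rpow_mul hz.le, Real.rpow_two]
        calc (φ (z ^ 2) ^ 2) ^ (k + 1) ≤
            (((z : ℝ) ^ (2 * (1 / (8 * ((k : ℝ) + 1))))) ^ 2) ^ (k + 1) := by gcongr
          _ = (z : ℝ) ^ (1 / 2 : ℝ) := by
              rw [← pow_mul, ← Real.rpow_natCast, ← Real.rpow_mul hz.le]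
              congr 1
              push_cast
              field_simp
              norm_num
      have h6 : (10 : ℝ) ^ (k + 1) ≤ (z : ℝ) ^ (1 / 2 : ℝ) := by
        rw [← Real.sqrt_eq_rpow]
        apply Real.le_sqrt_of_sq_le
        rw [← pow_mul, mul_comm (k + 1) 2, pow_mul]
        norm_num
        exact_mod_cast h3
      have h7 : (((2 * hf φ (z ^ 2)) ^ (k + 1) : ℕ) : ℝ) ≤ z := by
        push_cast
        push_cast at h4
        calc ((2 : ℝ) * hf φ (z ^ 2)) ^ (k + 1) ≤ (10 * φ (z ^ 2) ^ 2) ^ (k + 1) := by gcongr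
          _ = 10 ^ (k + 1) * (φ (z ^ 2) ^ 2) ^ (k + 1) := mul_pow _ _ _
          _ ≤ (z : ℝ) ^ (1 / 2 : ℝ) * (z : ℝ) ^ (1 / 2 : ℝ) := by gcongr
          _ = z := by
              rw [← Real.rpow_add hz]
              norm_num
      exact_mod_cast h7
    obtain ⟨z0, hz0⟩ := eventually_atTop.1 (hb.and (hsq.and
      (htend.eventually_ge_atTop (2 * 6 ^ k))))
    filter_upwards [eventually_ge_atTop (W (hf φ) (z0 + k))] with N hN
    have hWpos : ∀ j, 1 ≤ W (hf φ) j := fun j => Nat.one_le_two_pow.trans (W_ge hf_pos j)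
    obtain ⟨i', hi1, hi2⟩ := exists_index (hf_pos (φ := φ)) (x := N) ((hWpos _).trans hN)
    have hi3 : z0 + k ≤ i' := by
      by_contra hcon
      have := W_mono (hf_pos (φ := φ)) (i := i' + 1) (j := z0 + k) (by omega)
      omega
    set i := i' - k with hi
    have hii : i' = i + k := by omega
    set z := W (hf φ) i with hz
    have hzz0 : z0 ≤ z := by
      have h1 := W_ge (hf_pos (φ := φ)) i
      have h2 : i < 2 ^ i := Nat.lt_two_pow_self
      omega
    obtain ⟨hz1, hz2, hz3⟩ := hz0 z hzz0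
    set Y := 2 * hf φ (z ^ 2) with hY
    have hY1 : 1 ≤ Y := by
      have := hf_pos (φ := φ) (z ^ 2)
      omega
    have hgrow : ∀ r, r ≤ k + 1 → W (hf φ) (i + r) ≤ z * Y ^ r := by
      intro r
      induction r with
      | zero => intro _; simp [hz]
      | succ r ih =>
        intro hr
        have h1 := ih (by omega)
        have h2 : W (hf φ) (i + r) ≤ z ^ 2 := by
          rw [pow_two]
          refine h1.trans (Nat.mul_le_mul_left _ ?_)
          exact (Nat.pow_le_pow_right hY1 (by omega)).trans hz1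
        show 2 * hf φ (W (hf φ) (i + r)) * W (hf φ) (i + r) ≤ z * Y ^ (r + 1)
        calc 2 * hf φ (W (hf φ) (i + r)) * W (hf φ) (i + r) ≤ Y * (z * Y ^ r) :=
              Nat.mul_le_mul (Nat.mul_le_mul_left _ (hf_mono hmono h2)) h1
          _ = z * Y ^ (r + 1) := by ring
    have hNz : N ≤ z ^ 2 := by
      rw [hii] at hi2
      have h1 := hgrow (k + 1) le_rfl
      have h2 : z * Y ^ (k + 1) ≤ z * z := Nat.mul_le_mul_left _ hz1
      rw [pow_two]
      rw [show i + (k + 1) = i + k + 1 by omega] at h1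
      omega
    have hφz : (1 : ℝ) ≤ φ z := by
      have : (1 : ℝ) ≤ 6 ^ k := one_le_pow₀ (by norm_num)
      linarith
    have hzN : z ≤ N := (W_mono (hf_pos (φ := φ)) (by omega : i ≤ i')).trans hi1
    have hφN : φ N ^ C ≤ φ z ^ (c * C) := by
      rw [pow_mul]
      exact pow_le_pow_left₀ (by linarith [hmono hzN]) ((hmono hNz).trans hz2) C
    -- the count
    have h3 := hA3 i
    have h4 : (φ z ^ 2) ^ k ≤ 32 ^ k * ((A ∩ Set.Iio (W (hf φ) (i + k))).ncard : ℝ) ^ 2 := by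
      calc (φ z ^ 2) ^ k = ∏ _c ∈ range k, φ z ^ 2 := by
            rw [Finset.prod_const, card_range]
        _ ≤ ∏ c ∈ range k, (hf φ (W (hf φ) (i + c)) : ℝ) := by
            apply Finset.prod_le_prod
            · intro c _; positivity
            · intro c _
              refine (le_hf (by linarith)).trans ?_
              exact_mod_cast hf_mono hmono (W_mono hf_pos (by omega))
        _ ≤ _ := by exact_mod_cast h3
    set n := (A ∩ Set.Iio (W (hf φ) (i + k))).ncard with hn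
    have h5 : φ z ^ k ≤ 6 ^ k * n := by
      apply le_of_sq_le_sq _ (by positivity)
      calc (φ z ^ k) ^ 2 = (φ z ^ 2) ^ k := by rw [← pow_mul, ← pow_mul, mul_comm]
        _ ≤ 32 ^ k * (n : ℝ) ^ 2 := h4
        _ ≤ 36 ^ k * (n : ℝ) ^ 2 := by gcongr; norm_num
        _ = (6 ^ k * n) ^ 2 := by
            rw [mul_pow, ← pow_mul, mul_comm k 2, pow_mul]
            norm_num
    have h6 : n ≤ (A ∩ Set.Icc 1 N).ncard + 1 := by
      rw [hn, ← hii]
      exact count_Icc (by omega)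
    have h7 : (n : ℝ) ≤ ((A ∩ Set.Icc 1 N).ncard : ℝ) + 1 := by exact_mod_cast h6
    have h8 : 2 * φ z ^ (c * C) ≤ n := by
      have h9 : 6 ^ k * (2 * φ z ^ (c * C)) ≤ 6 ^ k * (n : ℝ) := by
        refine le_trans ?_ h5
        calc (6 : ℝ) ^ k * (2 * φ z ^ (c * C)) = (2 * 6 ^ k) * φ z ^ (c * C) := by ring
          _ ≤ φ z * φ z ^ (c * C) := by gcongr
          _ = φ z ^ k := by rw [hk]; ring
      exact le_of_mul_le_mul_left h9 (by positivity)
    have h9 : 1 ≤ φ z ^ (c * C) := one_le_pow₀ hφz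
    linarith

theorem clG_thr {c : ℕ} (hsq : ∀ᶠ N : ℕ in atTop, φ (N ^ 2) ≤ φ N ^ c)
    (hsmall : ∀ ε : ℝ, 0 < ε → ∀ᶠ N : ℕ in atTop, φ N ≤ (N : ℝ) ^ ε) (g : ℕ → ℝ) :
    ForcesIn (Scale φ) g ↔ ∀ C : ℕ, ∃ᶠ N : ℕ in atTop, φ N ^ C < Real.sqrt N / g N := by
  constructor
  · intro hF C hcon
    simp only [not_lt] at hcon
    obtain ⟨A, hA, ⟨R, hR⟩, hlow⟩ := clG_lower hmono hlog hsq hsmall C
    obtain ⟨n, hn⟩ := hF A hA ⟨1, one_pos, by
      filter_upwards [hcon, hlow] with N h1 h2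
      linarith⟩ R
    have := hR n
    omega
  · intro h A hA hD K
    by_contra hcon
    push Not at hcon
    obtain ⟨E, hE⟩ := clG_upper hlog hA hcon
    obtain ⟨C', hC', hD⟩ := hD
    have htend := phi_tendsto hlog
    obtain ⟨N, h1, ⟨h2, h3⟩, h4⟩ := ((h (E + 1)).and_eventually ((hE.and hD).and
      (htend.eventually_ge_atTop (max C' 1)))).exists
    have h5 : (1 : ℝ) ≤ φ N := (le_max_right _ _).trans h4
    have h6 : C' ≤ φ N := (le_max_left _ _).trans h4
    have : Real.sqrt N / g N ≤ φ N ^ (E + 1) := by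
      calc Real.sqrt N / g N ≤ C' * ((A ∩ Set.Icc 1 N).ncard : ℝ) := h3
        _ ≤ φ N * φ N ^ E := by gcongr
        _ = φ N ^ (E + 1) := by ring
    linarith

end

/-! ### powers -/

theorem pwG_zero {A : Set ℕ} (hA : Powers 0 A) {R : ℕ} (hr : ∀ n, rep A n ≤ R) {δ : ℝ} (hδ : 0 < δ) :
    ∀ᶠ N : ℕ in atTop, ((A ∩ Set.Icc 1 N).ncard : ℝ) ≤ (N : ℝ) ^ δ := by
  obtain ⟨t, ht⟩ : ∃ t, t = Nat.log 2 R := ⟨_, rfl⟩
  have hε : (0 : ℝ) < δ / (2 * (t + 1)) := by positivity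
  filter_upwards [hA _ hε, eventually_ge_atTop 1,
    (tendsto_rpow_nat (half_pos hδ)).eventually_ge_atTop 2] with N h1 h2 h3
  have hN : (1 : ℝ) ≤ N := by exact_mod_cast h2
  have h4 := ineq' (A := A) (t := t) (fun n => lt_of_le_of_lt (hr n) (by
    rw [ht]; exact Nat.lt_pow_succ_log_self (by norm_num) R)) N
  have h5 : ((A ∩ Set.Icc 1 N).ncard : ℝ) ≤ (gram A N : ℝ) ^ t + 1 := by exact_mod_cast h4
  rw [zero_add] at h1
  have h6 : (gram A N : ℝ) ^ t ≤ (N : ℝ) ^ (δ / 2) := by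
    calc (gram A N : ℝ) ^ t ≤ ((N : ℝ) ^ (δ / (2 * (t + 1)))) ^ t :=
          pow_le_pow_left₀ (by positivity) h1 t
      _ = (N : ℝ) ^ (δ / (2 * (t + 1)) * t) := by
          rw [← Real.rpow_natCast, ← Real.rpow_mul (by linarith)]
      _ ≤ (N : ℝ) ^ (δ / 2) := by
          apply Real.rpow_le_rpow_of_exponent_le hN
          rw [div_mul_eq_mul_div, div_le_div_iff₀ (by positivity) (by norm_num)]
          nlinarith
  have h7 : (N : ℝ) ^ δ = (N : ℝ) ^ (δ / 2) * (N : ℝ) ^ (δ / 2) := by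
    rw [← Real.rpow_add (by linarith)]
    congr 1
    ring
  rw [h7]
  nlinarith

theorem pwG_lower {κ β : ℝ} (hκ : 0 < κ) (hβ : 0 < β) (hβ2 : β < 1 / 2) :
    ∃ A : Set ℕ, (∀ᶠ N : ℕ in atTop, (gram A N : ℝ) ≤ (N : ℝ) ^ κ) ∧
      (∃ R : ℕ, ∀ n, rep A n ≤ R) ∧
      ∀ᶠ N : ℕ in atTop, (N : ℝ) ^ (1 / 2 - β) ≤ ((A ∩ Set.Icc 1 N).ncard : ℝ) := by
  set η : ℝ := min (β / 2) (κ / 2) with hηdef
  have hη : 0 < η := lt_min (by linarith) (by linarith)
  have hη1 : η ≤ β / 2 := min_le_left _ _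
  have hη2 : η ≤ κ / 2 := min_le_right _ _
  obtain ⟨k0, hk0⟩ := pow_unbounded_of_one_lt (1 / η) (show 1 < 1 + η by linarith)
  set k := k0 + 1 with hk
  have hk1 : 1 ≤ η * (1 + η) ^ k := by
    have h1 : (1 + η) ^ k0 ≤ (1 + η) ^ k := pow_le_pow_right₀ (by linarith) (by omega)
    rw [div_lt_iff₀ hη] at hk0
    nlinarith
  obtain ⟨A, hA1, hA2, hA3⟩ := construct' (hp_mono hη) (hp_pos η) (k := k) (by omega)
  have hWpos : ∀ j, 1 ≤ W (hp η) j := fun j => Nat.one_le_two_pow.trans (W_ge (hp_pos η) j)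
  refine ⟨A, ?_, ⟨2 ^ k, hA1⟩, ?_⟩
  · have hlim : 0 < (κ - η) / 2 := by linarith
    have hl : ∀ᶠ N : ℕ in atTop, Real.log N ≤ (N : ℝ) ^ ((κ - η) / 2) := by
      have h1 := (isLittleO_log_rpow_atTop hlim).bound (show (0 : ℝ) < 1 by norm_num)
      have h2 := tendsto_natCast_atTop_atTop.eventually h1
      filter_upwards [h2, eventually_ge_atTop 3] with N h3 h4
      have h5 := one_le_log h4
      rw [Real.norm_eq_abs, Real.norm_eq_abs, one_mul, abs_of_nonneg (by linarith),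
        abs_of_nonneg (by positivity)] at h3
      exact h3
    filter_upwards [(tendsto_rpow_nat hlim).eventually_ge_atTop (2 ^ (k + 3) * 6),
      eventually_ge_atTop 3, hl] with L h1 h2 h5
    have hL : (0 : ℝ) < L := by
      have : 0 < L := by omega
      exact_mod_cast this
    have h3 : (gram A L : ℝ) ≤ 2 ^ (k + 3) * (hp η L * ((Nat.log 2 L : ℕ) + 1)) := by
      exact_mod_cast hA2 L (by omega)
    have h6 : ((Nat.log 2 L : ℕ) : ℝ) + 1 ≤ 3 * (L : ℝ) ^ ((κ - η) / 2) := by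
      have h7 : (2 : ℝ) ^ Nat.log 2 L ≤ L := by exact_mod_cast Nat.pow_log_le_self 2 (by omega)
      have h8 : (Nat.log 2 L : ℝ) * Real.log 2 ≤ Real.log L := by
        rw [← Real.log_pow]
        exact Real.log_le_log (by positivity) h7
      have h9 := Real.log_two_gt_d9
      have h10 := one_le_log h2
      have h11 : (0 : ℝ) ≤ Nat.log 2 L := Nat.cast_nonneg _
      nlinarith
    calc (gram A L : ℝ) ≤ 2 ^ (k + 3) * (hp η L * ((Nat.log 2 L : ℕ) + 1)) := h3
      _ ≤ 2 ^ (k + 3) * ((2 * (L : ℝ) ^ η) * (3 * (L : ℝ) ^ ((κ - η) / 2))) := by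
          gcongr
          exact hp_le hη (by omega)
      _ = (2 ^ (k + 3) * 6) * ((L : ℝ) ^ η * (L : ℝ) ^ ((κ - η) / 2)) := by ring
      _ ≤ (L : ℝ) ^ ((κ - η) / 2) * ((L : ℝ) ^ η * (L : ℝ) ^ ((κ - η) / 2)) := by gcongr
      _ = (L : ℝ) ^ κ := by
          rw [← Real.rpow_add hL, ← Real.rpow_add hL]
          congr 1
          ring
  · filter_upwards [(tendsto_rpow_nat (show 0 < β / 2 by linarith)).eventually_ge_atTop
      (4 * 8 ^ k), eventually_ge_atTop (W (hp η) k)] with N h1 h2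
    obtain ⟨i', hi1, hi2⟩ := exists_index (hp_pos η) (x := N) ((hWpos _).trans h2)
    have hi3 : k ≤ i' := by
      by_contra hcon
      have := W_mono (hp_pos η) (i := i' + 1) (j := k) (by omega)
      omega
    obtain ⟨i, rfl⟩ : ∃ i, i' = i + k := ⟨i' - k, by omega⟩
    have hN1 : 1 ≤ N := (hWpos _).trans h2
    have hNR : (1 : ℝ) ≤ N := by exact_mod_cast hN1
    set n := (A ∩ Set.Iio (W (hp η) (i + k))).ncard with hn
    set M : ℝ := ((W (hp η) (i + k) : ℕ) : ℝ) with hM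
    have hM1 : 1 ≤ M := by rw [hM]; exact_mod_cast hWpos (i + k)
    have hM0 : 0 < M := by linarith
    set z : ℝ := ((W (hp η) i : ℕ) : ℝ) with hz
    have hz1 : 1 ≤ z := by rw [hz]; exact_mod_cast hWpos i
    -- `z ≤ M ^ η`
    have h3 : z ≤ M ^ η := by
      have h4 := W_grow hη i k
      rw [← hz, ← hM] at h4
      calc z = z ^ (1 : ℝ) := (Real.rpow_one _).symm
        _ ≤ z ^ ((1 + η) ^ k * η) := by
            apply Real.rpow_le_rpow_of_exponent_le hz1
            linarith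
        _ = (z ^ ((1 + η) ^ k)) ^ η := Real.rpow_mul (by linarith) _ _
        _ ≤ M ^ η := Real.rpow_le_rpow (by positivity) h4 hη.le
    -- `M ≤ 64 ^ k n ^ 2 z`
    have h4 : M ≤ 64 ^ k * (n : ℝ) ^ 2 * z := by
      have h5 := W_prod (hp η) i k
      have h6 := hA3 i
      have h7 : W (hp η) (i + k) ≤ 64 ^ k * n ^ 2 * W (hp η) i := by
        rw [h5]
        apply Nat.mul_le_mul_right
        calc 2 ^ k * ∏ c ∈ range k, hp η (W (hp η) (i + c)) ≤ 2 ^ k * (32 ^ k * n ^ 2) :=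
              Nat.mul_le_mul_left _ h6
          _ = 64 ^ k * n ^ 2 := by
              rw [show (64 : ℕ) = 2 * 32 by norm_num, mul_pow]
              ring
      rw [hM, hz]
      exact_mod_cast h7
    have h5 : M ^ (1 - η) ≤ 64 ^ k * (n : ℝ) ^ 2 := by
      have h6 : M ^ (1 - η) * M ^ η ≤ 64 ^ k * (n : ℝ) ^ 2 * M ^ η := by
        rw [← Real.rpow_add hM0, sub_add_cancel, Real.rpow_one]
        exact h4.trans (mul_le_mul_of_nonneg_left h3 (by positivity))
      exact le_of_mul_le_mul_right h6 (by positivity)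
    -- `N ≤ 4 M ^ (1 + η)`
    have h6 : (N : ℝ) ≤ 4 * M ^ (1 + η) := by
      have h7 : (N : ℝ) ≤ ((2 * hp η (W (hp η) (i + k)) * W (hp η) (i + k) : ℕ) : ℝ) := by
        exact_mod_cast hi2.le
      push_cast at h7
      rw [← hM] at h7
      have h8 := hp_le hη (hWpos (i + k))
      rw [← hM] at h8
      rw [Real.rpow_add hM0, Real.rpow_one]
      nlinarith
    have h7 : (N : ℝ) ^ (1 - 2 * η) ≤ 4 * M ^ (1 - η) := by
      have hpos : 0 ≤ 1 - 2 * η := by linarith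
      calc (N : ℝ) ^ (1 - 2 * η) ≤ (4 * M ^ (1 + η)) ^ (1 - 2 * η) :=
            Real.rpow_le_rpow (by positivity) h6 hpos
        _ = 4 ^ (1 - 2 * η) * M ^ ((1 + η) * (1 - 2 * η)) := by
            rw [Real.mul_rpow (by norm_num) (by positivity), ← Real.rpow_mul hM0.le]
        _ ≤ 4 ^ (1 : ℝ) * M ^ (1 - η) := by
            gcongr
            · norm_num
            · linarith
            · nlinarith
        _ = 4 * M ^ (1 - η) := by rw [Real.rpow_one]
    have h8 : (N : ℝ) ^ ((1 - β) / 2) ≤ 2 * 8 ^ k * n := by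
      apply le_of_sq_le_sq _ (by positivity)
      calc ((N : ℝ) ^ ((1 - β) / 2)) ^ 2 = (N : ℝ) ^ (1 - β) := by
            rw [← Real.rpow_natCast, ← Real.rpow_mul (by linarith)]
            congr 1
            push_cast
            ring
        _ ≤ (N : ℝ) ^ (1 - 2 * η) := Real.rpow_le_rpow_of_exponent_le hNR (by linarith)
        _ ≤ 4 * (64 ^ k * (n : ℝ) ^ 2) := h7.trans (by linarith)
        _ = (2 * 8 ^ k * n) ^ 2 := by
            rw [mul_pow, mul_pow, ← pow_mul, mul_comm k 2, pow_mul]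
            norm_num
            ring
    have h9 : n ≤ (A ∩ Set.Icc 1 N).ncard + 1 := count_Icc (by omega)
    have h10 : (n : ℝ) ≤ ((A ∩ Set.Icc 1 N).ncard : ℝ) + 1 := by exact_mod_cast h9
    have h11 : 2 * (N : ℝ) ^ (1 / 2 - β) ≤ n := by
      have h12 : (N : ℝ) ^ ((1 - β) / 2) = (N : ℝ) ^ (1 / 2 - β) * (N : ℝ) ^ (β / 2) := by
        rw [← Real.rpow_add (by linarith)]
        congr 1
        ring
      rw [h12] at h8
      have h13 : (N : ℝ) ^ (1 / 2 - β) * (4 * 8 ^ k) ≤ 2 * 8 ^ k * n :=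
        (mul_le_mul_of_nonneg_left h1 (by positivity)).trans h8
      have h14 : (0 : ℝ) < 8 ^ k := by positivity
      have h15 : (2 * 8 ^ k) * (2 * (N : ℝ) ^ (1 / 2 - β)) ≤ (2 * 8 ^ k) * (n : ℝ) := by
        linarith
      exact le_of_mul_le_mul_left h15 (by positivity)
    have h12 : 1 ≤ (N : ℝ) ^ (1 / 2 - β) := Real.one_le_rpow hNR (by linarith)
    linarith

theorem pwG_thr {κ β : ℝ} (hκ : 0 ≤ κ) (hβ : 0 < β) (hβ2 : β < 1 / 2) :
    ForcesIn (Powers κ) (fun N => (N : ℝ) ^ β) ↔ κ = 0 := by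
  have hdiv : ∀ N : ℕ, 1 ≤ N → Real.sqrt N / (N : ℝ) ^ β = (N : ℝ) ^ (1 / 2 - β) := by
    intro N hN
    have : (0 : ℝ) < N := by exact_mod_cast hN
    rw [Real.sqrt_eq_rpow, ← Real.rpow_sub this]
  constructor
  · intro hF
    by_contra hne
    obtain ⟨A, hA1, ⟨R, hR⟩, hA3⟩ := pwG_lower (lt_of_le_of_ne hκ (Ne.symm hne)) hβ hβ2
    obtain ⟨n, hn⟩ := hF A (by
      intro ε hε
      filter_upwards [hA1, eventually_ge_atTop 1] with L h1 h2
      refine h1.trans (Real.rpow_le_rpow_of_exponent_le (by exact_mod_cast h2) (by linarith)))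
      ⟨1, one_pos, by
        filter_upwards [hA3, eventually_ge_atTop 1] with N h1 h2
        rw [hdiv N h2, one_mul]
        exact h1⟩ R
    have := hR n
    omega
  · rintro rfl A hA hD K
    by_contra hcon
    push Not at hcon
    obtain ⟨C, hC, hD⟩ := hD
    have hδ : 0 < (1 / 2 - β) / 2 := by linarith
    have h1 := pwG_zero hA hcon hδ
    obtain ⟨N, ⟨h2, h3⟩, h4, h5⟩ := ((hD.and h1).and
      (((tendsto_rpow_nat hδ).eventually_gt_atTop C).and (eventually_ge_atTop 1))).exists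
    rw [hdiv N h5] at h2
    have hN0 : (0 : ℝ) < N := by exact_mod_cast h5
    have h6 : (N : ℝ) ^ (1 / 2 - β) =
        (N : ℝ) ^ ((1 / 2 - β) / 2) * (N : ℝ) ^ ((1 / 2 - β) / 2) := by
      rw [← Real.rpow_add hN0]
      congr 1
      ring
    rw [h6] at h2
    have h7 : 0 < (N : ℝ) ^ ((1 / 2 - β) / 2) := by positivity
    have h8 : C * ((A ∩ Set.Icc 1 N).ncard : ℝ) ≤ C * (N : ℝ) ^ ((1 / 2 - β) / 2) := by
      gcongr
    have h9 : C * (N : ℝ) ^ ((1 / 2 - β) / 2) <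
        (N : ℝ) ^ ((1 / 2 - β) / 2) * (N : ℝ) ^ ((1 / 2 - β) / 2) := by
      gcongr
    linarith

end Pool.Agent.Helper42.GC
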