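import Pool.Agent.Helper42.GC.Defs

/-!
# Straight-line grammars and representation functions: the inequality
-/

set_option autoImplicit false

open Finset

namespace Pool.Agent.Helper42.GC

/-- the places of the ones -/
def ones (w : List Bool) : Finset ℕ := (range w.length).filter (fun i => w[i]? = some true)

lemma mem_ones {w : List Bool} {a : ℕ} : a ∈ ones w ↔ w[a]? = some true := by
  unfold ones
  rw [mem_filter, mem_range]
  constructor
  · exact fun h => h.2
  · intro h
    refine ⟨?_, h⟩
    rw [List.getElem?_eq_some_iff] at h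
    exact h.1

lemma lt_of_mem_ones {w : List Bool} {a : ℕ} (h : a ∈ ones w) : a < w.length := by
  unfold ones at h
  rw [mem_filter, mem_range] at h
  exact h.1

/-- the number of the ordered representations of `n` as a sum of two elements of `X` -/
def rf (X : Finset ℕ) (n : ℕ) : ℕ := ((X ×ˢ X).filter (fun p => p.1 + p.2 = n)).card

lemma getElem?_mid (u x z : List Bool) {a : ℕ} (ha : a < x.length) :
    (u ++ x ++ z)[a + u.length]? = x[a]? := by
  rw [List.append_assoc, List.getElem?_append_right (by omega), List.getElem?_append_left (by omega)]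
  congr 1
  omega

lemma two_mul_rf (u x v z : List Bool) (n : ℕ) :
    2 * rf (ones x) n ≤ rf (ones (u ++ x ++ (v ++ x ++ z)))
      (n + (u.length + (u.length + x.length + v.length))) := by
  classical
  obtain ⟨p, hp⟩ : ∃ p, p = u.length := ⟨_, rfl⟩
  obtain ⟨q, hq⟩ : ∃ q, q = u.length + x.length + v.length := ⟨_, rfl⟩
  rw [← hq, ← hp]
  obtain ⟨w, hw⟩ : ∃ w, w = u ++ x ++ (v ++ x ++ z) := ⟨_, rfl⟩
  rw [← hw]
  have hw2 : w = (u ++ x ++ v) ++ x ++ z := by rw [hw]; simp
  have m1 : ∀ a ∈ ones x, a + p ∈ ones w := by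
    intro a ha
    rw [mem_ones, hw, hp, getElem?_mid _ _ _ (lt_of_mem_ones ha)]
    exact mem_ones.1 ha
  have m2 : ∀ a ∈ ones x, a + q ∈ ones w := by
    intro a ha
    have e : q = (u ++ x ++ v).length := by
      rw [hq, List.length_append, List.length_append]
    rw [mem_ones, hw2, e, getElem?_mid _ _ _ (lt_of_mem_ones ha)]
    exact mem_ones.1 ha
  have hlt : ∀ a ∈ ones x, a + p < q := by
    intro a ha
    have := lt_of_mem_ones ha
    omega
  unfold rf
  obtain ⟨X, hX⟩ : ∃ X, X = (ones x ×ˢ ones x).filter (fun p => p.1 + p.2 = n) := ⟨_, rfl⟩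
  rw [← hX]
  have hmem : ∀ r : ℕ × ℕ, r ∈ X ↔ (r.1 ∈ ones x ∧ r.2 ∈ ones x) ∧ r.1 + r.2 = n := by
    intro r
    rw [hX, mem_filter, mem_product]
  have c1 : (X.image (fun r : ℕ × ℕ => (r.1 + p, r.2 + q))).card = X.card := by
    apply card_image_of_injective
    rintro ⟨a, b⟩ ⟨c, d⟩ h
    simp only [Prod.mk.injEq] at h
    ext <;> simp <;> omega
  have c2 : (X.image (fun r : ℕ × ℕ => (r.1 + q, r.2 + p))).card = X.card := by
    apply card_image_of_injective
    rintro ⟨a, b⟩ ⟨c, d⟩ h
    simp only [Prod.mk.injEq] at h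
    ext <;> simp <;> omega
  have hd : Disjoint (X.image (fun r : ℕ × ℕ => (r.1 + p, r.2 + q)))
      (X.image (fun r : ℕ × ℕ => (r.1 + q, r.2 + p))) := by
    rw [disjoint_left]
    intro y h1 h2
    rw [mem_image] at h1 h2
    obtain ⟨r, hr, rfl⟩ := h1
    obtain ⟨r', hr', h3⟩ := h2
    simp only [Prod.mk.injEq] at h3
    have := hlt r.1 ((hmem r).1 hr).1.1
    omega
  rw [two_mul]
  nth_rewrite 1 [← c1]
  rw [← c2, ← card_union_of_disjoint hd]
  apply card_le_card
  intro y hy
  rw [mem_union, mem_image, mem_image] at hy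
  rw [mem_filter, mem_product]
  rcases hy with ⟨r, hr, rfl⟩ | ⟨r, hr, rfl⟩
  · obtain ⟨⟨h1, h2⟩, h3⟩ := (hmem r).1 hr
    exact ⟨⟨m1 _ h1, m2 _ h2⟩, by simp only; omega⟩
  · obtain ⟨⟨h1, h2⟩, h3⟩ := (hmem r).1 hr
    exact ⟨⟨m2 _ h1, m1 _ h2⟩, by simp only; omega⟩

lemma two_mul_rf' {w u x v z : List Bool} (h : w = u ++ (x ++ (v ++ (x ++ z)))) (n : ℕ) :
    ∃ n', 2 * rf (ones x) n ≤ rf (ones w) n' := by
  have h1 := two_mul_rf u x v z n
  have h2 : u ++ x ++ (v ++ x ++ z) = w := by rw [h]; simp
  rw [h2] at h1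
  exact ⟨_, h1⟩

lemma ones_singleton (c : Bool) (n : ℕ) : rf (ones [c]) n ≤ 1 := by
  have h0 : ones [c] ⊆ {0} := by
    intro a ha
    have := lt_of_mem_ones ha
    simp at this
    simp [this]
  unfold rf
  refine (card_le_card (t := {((0 : ℕ), (0 : ℕ))}) ?_).trans (by simp)
  rintro ⟨a, b⟩ h
  rw [mem_filter, mem_product] at h
  have h1 := h0 h.1.1
  have h2 := h0 h.1.2
  simp at h1 h2
  simp [h1, h2]

lemma count_eq (w : List Bool) : w.count true = (ones w).card := by
  induction w with
  | nil => simp [ones]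
  | cons c w ih =>
    have h1 : ones (c :: w) = (if c then {0} else ∅) ∪ (ones w).image (fun i => i + 1) := by
      ext a
      rw [mem_union, mem_image, mem_ones]
      rcases a with _ | a
      · cases c <;> simp
      · rw [List.getElem?_cons_succ, ← mem_ones]
        constructor
        · exact fun h => Or.inr ⟨a, h, rfl⟩
        · rintro (h | ⟨b, hb, hb2⟩)
          · cases c <;> simp at h
          · have : b = a := by omega
            rw [← this]
            exact hb
    have h2 : Disjoint (if c then ({0} : Finset ℕ) else ∅) ((ones w).image (fun i => i + 1)) := by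
      rw [disjoint_left]
      intro a h3 h4
      rw [mem_image] at h4
      obtain ⟨b, _, hb⟩ := h4
      cases c <;> simp at h3
      omega
    rw [h1, card_union_of_disjoint h2, card_image_of_injective _ (fun a b h => by
      exact Nat.succ_injective h), ← ih]
    cases c
    · simp
    · simp
      omega

lemma count_le_one {w : List Bool} (h : ∀ n, rf (ones w) n < 2) : w.count true ≤ 1 := by
  classical
  rw [count_eq]
  by_contra hcon
  push Not at hcon
  obtain ⟨a, ha, b, hb, hab⟩ := one_lt_card.1 hcon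
  have h1 := h (a + b)
  have h2 : ({(a, b), (b, a)} : Finset (ℕ × ℕ)).card = 2 := by
    rw [card_pair]
    intro h3
    exact hab (Prod.mk.inj h3).1
  have h3 : ({(a, b), (b, a)} : Finset (ℕ × ℕ)) ⊆
      (ones w ×ˢ ones w).filter (fun p => p.1 + p.2 = a + b) := by
    intro p hp
    rw [mem_insert, mem_singleton] at hp
    rw [mem_filter, mem_product]
    rcases hp with rfl | rfl
    · exact ⟨⟨ha, hb⟩, rfl⟩
    · exact ⟨⟨hb, ha⟩, by simp only; omega⟩
  have h4 := card_le_card h3
  unfold rf at h1
  omega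

/-- heavy rules -/
def Heavy (F : ℕ → List Bool) (t m : ℕ) : Prop := ∃ n, 2 ^ (t + 1) ≤ rf (ones (F m)) n

lemma not_heavy_letter {F : ℕ → List Bool} {t m : ℕ} {c : Bool} (h : F m = [c]) :
    ¬ Heavy F t m := by
  rintro ⟨n, hn⟩
  rw [h] at hn
  have h1 := ones_singleton c n
  have h2 : 2 ≤ 2 ^ (t + 1) := by
    calc 2 = 2 ^ 1 := by norm_num
      _ ≤ 2 ^ (t + 1) := Nat.pow_le_pow_right (by norm_num) (by omega)
  omega

lemma once {F : ℕ → List Bool} {t i m : ℕ} (hR : ∀ n, rf (ones (F i)) n < 2 ^ (t + 2))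
    (hm : Heavy F t m) {l₁ l₂ l₃ : List ℕ} (h : F i = (l₁ ++ m :: (l₂ ++ m :: l₃)).flatMap F) :
    False := by
  obtain ⟨n, hn⟩ := hm
  obtain ⟨n', hn'⟩ := two_mul_rf' (w := F i) (u := l₁.flatMap F) (x := F m) (v := l₂.flatMap F)
    (z := l₃.flatMap F) (by
      rw [h, List.flatMap_append, List.flatMap_cons, List.flatMap_append, List.flatMap_cons]) n
  have h1 := hR n'
  have h2 : 2 ^ (t + 2) = 2 * 2 ^ (t + 1) := by ring
  omega

lemma unfold_heavy {s : ℕ} {F : ℕ → List Bool} (hF : Valid s F) {t i : ℕ} (hi : i < s)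
    (hR : ∀ n, rf (ones (F i)) n < 2 ^ (t + 2)) :
    ∀ d, d ≤ i → ∃ l : List ℕ, F i = l.flatMap F ∧ (∀ j ∈ l, j ≤ i) ∧
      (∀ j ∈ l, Heavy F t j → j ≤ i - d) ∧ l.length ≤ 1 + d := by
  intro d
  induction d with
  | zero =>
    intro _
    exact ⟨[i], by simp, by simp, by simp, by simp⟩
  | succ d ih =>
    intro hd
    obtain ⟨l, h1, h2, h3, h4⟩ := ih (by omega)
    obtain ⟨m, hm⟩ : ∃ m, m = i - d := ⟨_, rfl⟩
    by_cases hml : m ∈ l ∧ Heavy F t m
    · obtain ⟨hml, hheavy⟩ := hml
      obtain ⟨l₁, l₂, rfl⟩ := List.append_of_mem hml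
      have hl₁ : m ∉ l₁ := by
        intro hcon
        obtain ⟨a, b, rfl⟩ := List.append_of_mem hcon
        refine once hR hheavy (l₁ := a) (l₂ := b) (l₃ := l₂) ?_
        rw [h1]
        simp
      have hl₂ : m ∉ l₂ := by
        intro hcon
        obtain ⟨a, b, rfl⟩ := List.append_of_mem hcon
        exact once hR hheavy (l₁ := l₁) (l₂ := a) (l₃ := b) h1
      rcases hF m (by omega) with ⟨c, hc⟩ | ⟨j, hj, k, hk, hjk⟩
      · exact absurd hheavy (not_heavy_letter hc)
      · refine ⟨l₁ ++ j :: k :: l₂, ?_, ?_, ?_, ?_⟩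
        · rw [h1]
          simp only [List.flatMap_append, List.flatMap_cons, hjk, List.append_assoc]
        · intro r hr
          simp only [List.mem_append, List.mem_cons] at hr
          rcases hr with hr | rfl | rfl | hr
          · exact h2 r (by simp [hr])
          · omega
          · omega
          · exact h2 r (by simp [hr])
        · intro r hr hrh
          simp only [List.mem_append, List.mem_cons] at hr
          rcases hr with hr | rfl | rfl | hr
          · have h5 := h3 r (by simp [hr]) hrh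
            have h6 : r ≠ m := by
              rintro rfl
              exact hl₁ hr
            omega
          · omega
          · omega
          · have h5 := h3 r (by simp [hr]) hrh
            have h6 : r ≠ m := by
              rintro rfl
              exact hl₂ hr
            omega
        · simp only [List.length_append, List.length_cons] at h4 ⊢
          omega
    · refine ⟨l, h1, h2, ?_, by omega⟩
      intro j hj hjh
      have h5 := h3 j hj hjh
      have h6 : j ≠ m := by
        rintro rfl
        exact hml ⟨hj, hjh⟩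
      omega

lemma count_flatMap_le {F : ℕ → List Bool} {B : ℕ} : ∀ l : List ℕ,
    (∀ j ∈ l, (F j).count true ≤ B) → (l.flatMap F).count true ≤ l.length * B := by
  intro l
  induction l with
  | nil => intro _; simp
  | cons a l ih =>
    intro h
    rw [List.flatMap_cons, List.count_append, List.length_cons, add_mul, one_mul]
    have h1 := h a (by simp)
    have h2 := ih fun j hj => h j (by simp [hj])
    omega

/-- **The inequality.** -/
theorem main {s : ℕ} {F : ℕ → List Bool} (hF : Valid s F) : ∀ t i : ℕ, i < s →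
    (∀ n, rf (ones (F i)) n < 2 ^ (t + 1)) → (F i).count true ≤ (i + 1) ^ t := by
  intro t
  induction t with
  | zero =>
    intro i _ h
    rw [pow_zero]
    exact count_le_one fun n => by simpa using h n
  | succ t ih =>
    intro i hi h
    obtain ⟨l, h1, h2, h3, h4⟩ := unfold_heavy hF hi h i le_rfl
    have hlight : ∀ j ∈ l, ¬ Heavy F t j := by
      intro j hj hjh
      have h5 := h3 j hj hjh
      have h6 : j = 0 := by omega
      subst h6
      rcases hF 0 (by omega) with ⟨c, hc⟩ | ⟨j, hj, _⟩
      · exact not_heavy_letter hc hjh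
      · omega
    have h5 : ∀ j ∈ l, (F j).count true ≤ (i + 1) ^ t := by
      intro j hj
      have h6 := h2 j hj
      have h7 : ∀ n, rf (ones (F j)) n < 2 ^ (t + 1) := by
        intro n
        by_contra hcon
        exact hlight j hj ⟨n, not_lt.1 hcon⟩
      exact (ih j (by omega) h7).trans (Nat.pow_le_pow_left (by omega) t)
    have h6 := count_flatMap_le l h5
    rw [← h1] at h6
    refine h6.trans ?_
    rw [pow_succ, mul_comm]
    exact Nat.mul_le_mul_left _ (by omega)

theorem gen_bound {s t : ℕ} {w : List Bool} (hw : Gen s w) (h : ∀ n, rf (ones w) n < 2 ^ (t + 1)) :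
    w.count true ≤ s ^ t := by
  obtain ⟨F, hF, i, hi, rfl⟩ := hw
  exact (main hF t i hi h).trans (Nat.pow_le_pow_left (by omega) t)

end Pool.Agent.Helper42.GC
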